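import Pool.Agent.H123R2.Gen.BAS

/-!
Task PT of `h123_tasks`: the bound for one pair `(i, j)`.
-/

set_option autoImplicit false
set_option linter.unusedSectionVars false

namespace Pool.Agent.H123R2.Gen

open Finset

section
variable {V : Type} [Fintype V] [DecidableEq V]

private theorem PT_M_multiset (w : V → ℝ) (n : ℕ) (s : Multiset (Multiset V))
    (f : Multiset V → Multiset V → ℝ) :
    M w n (fun X => (s.map (fun S => f S X)).sum) = (s.map (fun S => M w n (f S))).sum := by
  induction s using Multiset.induction_on with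
  | empty => simp [M_zero_fun]
  | cons a s ih =>
    rw [Multiset.map_cons, Multiset.sum_cons, ← ih, ← M_add_fun]
    exact M_congr w n fun X _ => by rw [Multiset.map_cons, Multiset.sum_cons]

private theorem PT_split (w : V → ℝ) (n k : ℕ) (G φ : Multiset V → ℝ) :
    M w n (fun A => G A * ((A.powersetCard k).map φ).sum) =
      (n.choose k : ℝ) * M w k (fun S => φ S * M w (n - k) (fun U => G (S + U))) := by
  have h := M_pc w n k (fun S U => φ S * G (S + U))
  have e1 : M w n (fun J => ((J.powersetCard k).map (fun A => φ A * G (A + (J - A)))).sum) =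
      M w n (fun A => G A * ((A.powersetCard k).map φ).sum) := by
    refine M_congr w n fun J _ => ?_
    rw [← Multiset.sum_map_mul_left]
    congr 1
    refine Multiset.map_congr rfl fun A hA => ?_
    rw [add_tsub_cancel_of_le (Multiset.mem_powersetCard.mp hA).1, mul_comm]
  rw [← e1, h]
  congr 1
  exact M_congr w k fun S _ => M_mul_left w _ _ _

/-- number of completions of `x, S` to a good edge -/
private noncomputable def g (w : V → ℝ) (F : Multiset V → Prop) (t : ℕ) (η : ℝ) (m₂ i : ℕ)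
    (x : V) (S : Multiset V) : ℝ :=
  M w (t - 1 - i) (fun U => ind (good w F t η m₂ (x ::ₘ (S + U))))

/-- main sum -/
private noncomputable def TT (w : V → ℝ) (F : Multiset V → Prop) (t : ℕ) (η : ℝ) (m₂ i j : ℕ) : ℝ :=
  ∑ x, w x * M w i (fun S => M w j (fun S' => cd w F t (S + S') *
    (g w F t η m₂ i x S * g w F t η m₂ j x S')))

private theorem PT_eq (w : V → ℝ) (F : Multiset V → Prop) (t : ℕ) (η : ℝ) (m₂ i j : ℕ) :
    ∑ x, w x * M w (t - 1) (fun A => M w (t - 1) (fun A' =>
      ind (good w F t η m₂ (x ::ₘ A)) * ind (good w F t η m₂ (x ::ₘ A')) *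
        ((A.powersetCard i).map (fun S => ((A'.powersetCard j).map
          (fun S' => cd w F t (S + S'))).sum)).sum)) =
    ((t - 1).choose i : ℝ) * ((t - 1).choose j : ℝ) * TT w F t η m₂ i j := by
  unfold TT
  rw [Finset.mul_sum]
  refine Finset.sum_congr rfl fun x _ => ?_
  set G : Multiset V → ℝ := fun A => ind (good w F t η m₂ (x ::ₘ A)) with hG
  have h1 : M w (t - 1) (fun A => M w (t - 1) (fun A' => G A * G A' *
        ((A.powersetCard i).map (fun S => ((A'.powersetCard j).map
          (fun S' => cd w F t (S + S'))).sum)).sum)) =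
      M w (t - 1) (fun A => G A * ((A.powersetCard i).map (fun S =>
        ((t - 1).choose j : ℝ) * M w j (fun S' => cd w F t (S + S') * g w F t η m₂ j x S'))).sum) := by
    refine M_congr w _ fun A _ => ?_
    have h2 : M w (t - 1) (fun A' => G A * G A' *
        ((A.powersetCard i).map (fun S => ((A'.powersetCard j).map
          (fun S' => cd w F t (S + S'))).sum)).sum) =
        G A * M w (t - 1) (fun A' => ((A.powersetCard i).map (fun S => G A' *
          ((A'.powersetCard j).map (fun S' => cd w F t (S + S'))).sum)).sum) := by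
      rw [← M_mul_left]
      refine M_congr w _ fun A' _ => ?_
      rw [Multiset.sum_map_mul_left, mul_assoc]
    rw [h2, PT_M_multiset]
    congr 2
    refine Multiset.map_congr rfl fun S _ => ?_
    exact PT_split w (t - 1) j G (fun S' => cd w F t (S + S'))
  rw [h1, PT_split]
  have h3 : M w i (fun S => ((t - 1).choose j : ℝ) *
      M w j (fun S' => cd w F t (S + S') * g w F t η m₂ j x S') *
        M w (t - 1 - i) (fun U => G (S + U))) =
      ((t - 1).choose j : ℝ) * M w i (fun S => M w j (fun S' => cd w F t (S + S') *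
        (g w F t η m₂ i x S * g w F t η m₂ j x S'))) := by
    rw [← M_mul_left]
    refine M_congr w _ fun S _ => ?_
    rw [mul_assoc, ← M_mul_right]
    congr 1
    refine M_congr w _ fun S' _ => ?_
    show _ * g w F t η m₂ i x S = _
    ring
  rw [h3]
  ring

private theorem TT_symm (w : V → ℝ) (F : Multiset V → Prop) (t : ℕ) (η : ℝ) (m₂ i j : ℕ) :
    TT w F t η m₂ i j = TT w F t η m₂ j i := by
  unfold TT
  refine Finset.sum_congr rfl fun x _ => ?_
  rw [M_comm]
  congr 1
  refine M_congr w _ fun S' _ => M_congr w _ fun S _ => ?_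
  rw [add_comm S S']
  ring

private theorem g_nonneg (w : V → ℝ) (hw : ∀ x, 0 ≤ w x) (F : Multiset V → Prop) (t : ℕ) (η : ℝ)
    (m₂ i : ℕ) (x : V) (S : Multiset V) : 0 ≤ g w F t η m₂ i x S :=
  M_nonneg w hw _ fun _ _ => ind_nonneg _

/-- (d) -/
private theorem M_g {w : V → ℝ} {F : Multiset V → Prop} {t : ℕ} {d : ℝ} (hS : Sys w F t d)
    (η : ℝ) (m₂ j : ℕ) (hj : j ≤ t - 1) (x : V) : M w j (g w F t η m₂ j x) ≤ d := by
  have h := good_vertex hS η m₂ x
  have e : t - 1 = j + (t - 1 - j) := by omega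
  rw [e, M_add] at h
  exact h

/-- (c) -/
private theorem g_cd {w : V → ℝ} {F : Multiset V → Prop} {t : ℕ} {d : ℝ} (hS : Sys w F t d)
    (η : ℝ) (m₂ j : ℕ) (hj2 : 2 ≤ j) (hj : j ≤ t - 1) (x : V) (S : Multiset V)
    (hSj : S.card = j) :
    (m₂ : ℝ) ^ (t - j) * cd w F t S * g w F t η m₂ j x S ≤ η * g w F t η m₂ j x S := by
  unfold g
  rw [← M_mul_left, ← M_mul_left]
  refine M_mono w hS.w0 _ fun U _ => ?_
  by_cases h : good w F t η m₂ (x ::ₘ (S + U))
  · rw [ind_true h, mul_one, mul_one]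
    have := h.2 S ((Multiset.le_add_right S U).trans (Multiset.le_cons_self _ x))
      (by omega) (by have := hS.ht; omega)
    rw [hSj] at this
    exact this
  · rw [ind_false h]; simp

/-- (b) -/
private theorem g_small {w : V → ℝ} {F : Multiset V → Prop} {t : ℕ} {d : ℝ} (hS : Sys w F t d)
    (η : ℝ) (hη : 0 ≤ η) (m₂ i : ℕ) (hi1 : 1 ≤ i) (hi : i + 2 ≤ t) (x : V) (S : Multiset V)
    (hSi : S.card = i) : (m₂ : ℝ) ^ (t - 1 - i) * g w F t η m₂ i x S ≤ η := by
  have h := good_sum w hS.w0 F t η hη m₂ (x ::ₘ S) (by simp; omega) (by simp; omega)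
  have e : t - (x ::ₘ S).card = t - 1 - i := by simp; omega
  rw [e] at h
  unfold g
  simpa [Multiset.cons_add] using h

private theorem cd_one {w : V → ℝ} {F : Multiset V → Prop} {t : ℕ} {d : ℝ} (hS : Sys w F t d)
    (S : Multiset V) (h : S.card = 1) : cd w F t S = d := by
  obtain ⟨y, rfl⟩ := Multiset.card_eq_one.mp h
  exact hS.reg y

private theorem choose_le {m m₂ k : ℕ} (hmm : m ≤ m₂) : (m.choose k : ℝ) ≤ (m₂ : ℝ) ^ k := by
  calc (m.choose k : ℝ) ≤ ((m ^ k : ℕ) : ℝ) := by
        exact_mod_cast Nat.choose_le_pow m k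
    _ ≤ ((m₂ ^ k : ℕ) : ℝ) := by exact_mod_cast Nat.pow_le_pow_left hmm k
    _ = (m₂ : ℝ) ^ k := by push_cast; ring

/-- the sums `∑ w x M j (cd g_j)` -/
private theorem case_cd {w : V → ℝ} {F : Multiset V → Prop} {t : ℕ} {d : ℝ} (hS : Sys w F t d)
    (η : ℝ) (m₂ j : ℕ) (hj1 : 1 ≤ j) (hj : j ≤ t - 1) (x : V) :
    (j = 1 ∧ M w j (fun S' => cd w F t S' * g w F t η m₂ j x S') ≤ d * d) ∨
    (2 ≤ j ∧ (m₂ : ℝ) ^ (t - j) * M w j (fun S' => cd w F t S' * g w F t η m₂ j x S') ≤
      η * M w j (g w F t η m₂ j x)) := by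
  rcases Nat.lt_or_ge j 2 with h | h
  · left
    have hj1' : j = 1 := by omega
    refine ⟨hj1', ?_⟩
    have e : M w j (fun S' => cd w F t S' * g w F t η m₂ j x S') =
        M w j (fun S' => d * g w F t η m₂ j x S') :=
      M_congr w j fun S' hS' => by rw [cd_one hS S' (by omega)]
    rw [e, M_mul_left]
    exact mul_le_mul_of_nonneg_left (M_g hS η m₂ j hj x) (d_nonneg hS)
  · right
    refine ⟨h, ?_⟩
    rw [← M_mul_left, ← M_mul_left]
    refine M_mono w hS.w0 _ fun S' hS' => ?_
    have := g_cd hS η m₂ j h hj x S' hS'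
    linarith

private theorem sum_w_le {w : V → ℝ} (hw : ∀ x, 0 ≤ w x) (hw1 : ∑ x, w x = 1) {f : V → ℝ} {c : ℝ}
    (h : ∀ x, f x ≤ c) : ∑ x, w x * f x ≤ c := by
  calc ∑ x, w x * f x ≤ ∑ x, w x * c :=
        Finset.sum_le_sum fun x _ => mul_le_mul_of_nonneg_left (h x) (hw x)
    _ = c := by rw [← Finset.sum_mul, hw1, one_mul]

private theorem TT_bound {w : V → ℝ} {F : Multiset V → Prop} {t : ℕ} {d : ℝ} (hS : Sys w F t d)
    (m m₂ : ℕ) (hm1 : 1 ≤ m) (hmm : m ≤ m₂) (hd : 0 < d) (η : ℝ) (hη : 0 ≤ η) (i j : ℕ)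
    (hi : i + 2 ≤ t) (hj : j ≤ t - 1) (h1 : 1 ≤ j) (h2 : i + j ≤ t) :
    (m.choose (t - (i + j)) : ℝ) * TT w F t η m₂ i j ≤
      ((m.choose (t - 1) : ℝ) * d + η + η ^ 2 / (d * (m₂ : ℝ) ^ (t - 1))) * d ^ 2 := by
  have hm₂ : (0 : ℝ) < m₂ := by exact_mod_cast (by omega : 0 < m₂)
  have hw := hS.w0
  have hw1 := hS.w1
  have ht := hS.ht
  have p1 : 0 ≤ (m.choose (t - 1) : ℝ) * d := by positivity
  have p2 : 0 ≤ η ^ 2 / (d * (m₂ : ℝ) ^ (t - 1)) := by positivity
  have hC := choose_le (k := t - (i + j)) hmm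
  have hC0 : (0 : ℝ) ≤ (m.choose (t - (i + j)) : ℝ) := by positivity
  rcases Nat.eq_zero_or_pos i with hi0 | hi0
  · -- i = 0
    subst hi0
    have hg0 : ∀ x : V, g w F t η m₂ 0 x 0 ≤ d := fun x => M_g hS η m₂ 0 (Nat.zero_le _) x
    have hTT : TT w F t η m₂ 0 j = ∑ x, w x * (g w F t η m₂ 0 x 0 *
        M w j (fun S' => cd w F t S' * g w F t η m₂ j x S')) := by
      unfold TT
      refine Finset.sum_congr rfl fun x _ => ?_
      rw [M_zero, ← M_mul_left w j (g w F t η m₂ 0 x 0)]
      congr 1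
      refine M_congr w j fun S' _ => ?_
      rw [zero_add]
      ring
    have hMn : ∀ x : V, 0 ≤ M w j (fun S' => cd w F t S' * g w F t η m₂ j x S') := fun x =>
      M_nonneg w hw _ fun S' _ => mul_nonneg (cd_nonneg w hw F t S') (g_nonneg w hw F t η m₂ j x S')
    rw [hTT, Nat.zero_add] at *
    rcases Nat.lt_or_ge j 2 with h | h
    · have hj1 : j = 1 := by omega
      subst hj1
      have : ∑ x, w x * (g w F t η m₂ 0 x 0 *
        M w 1 (fun S' => cd w F t S' * g w F t η m₂ 1 x S')) ≤ d * (d * d) := by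
        refine sum_w_le hw hw1 fun x => ?_
        rcases case_cd hS η m₂ 1 le_rfl hj x with ⟨_, h3⟩ | ⟨h3, _⟩
        · exact mul_le_mul (hg0 x) h3 (hMn x) hd.le
        · omega
      have h4 := mul_le_mul_of_nonneg_left this hC0
      refine h4.trans ?_
      nlinarith [sq_nonneg d, mul_nonneg hη (sq_nonneg d), mul_nonneg p2 (sq_nonneg d)]
    · have hb : (m.choose (t - j) : ℝ) * ∑ x, w x * (g w F t η m₂ 0 x 0 *
        M w j (fun S' => cd w F t S' * g w F t η m₂ j x S')) ≤ d * (η * d) := by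
        have : (m.choose (t - j) : ℝ) * ∑ x, w x * (g w F t η m₂ 0 x 0 *
          M w j (fun S' => cd w F t S' * g w F t η m₂ j x S')) =
          ∑ x, w x * (g w F t η m₂ 0 x 0 * ((m.choose (t - j) : ℝ) *
          M w j (fun S' => cd w F t S' * g w F t η m₂ j x S'))) := by
          rw [Finset.mul_sum]
          exact Finset.sum_congr rfl fun x _ => by ring
        rw [this]
        refine sum_w_le hw hw1 fun x => ?_
        rcases case_cd hS η m₂ j h1 hj x with ⟨h3, _⟩ | ⟨_, h3⟩
        · omega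
        · have h5 : (m.choose (t - j) : ℝ) *
              M w j (fun S' => cd w F t S' * g w F t η m₂ j x S') ≤ η * d :=
            calc _ ≤ (m₂ : ℝ) ^ (t - j) * M w j (fun S' => cd w F t S' * g w F t η m₂ j x S') :=
                  mul_le_mul_of_nonneg_right hC (hMn x)
              _ ≤ η * M w j (g w F t η m₂ j x) := h3
              _ ≤ η * d := mul_le_mul_of_nonneg_left (M_g hS η m₂ j hj x) hη
          exact mul_le_mul (hg0 x) h5 (mul_nonneg hC0 (hMn x)) hd.le
      refine hb.trans ?_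
      nlinarith [sq_nonneg d, mul_nonneg p1 (sq_nonneg d), mul_nonneg p2 (sq_nonneg d)]
  · -- 1 ≤ i ≤ t - 2, 1 ≤ j
    set P : ℝ := (m₂ : ℝ) ^ (t - 1 - i) with hP
    have hPpos : 0 < P := by positivity
    -- `P * TT ≤ η ∑ w x M j (cd g_j)`
    have hMn : ∀ x : V, 0 ≤ M w j (fun S' => cd w F t S' * g w F t η m₂ j x S') := fun x =>
      M_nonneg w hw _ fun S' _ => mul_nonneg (cd_nonneg w hw F t S') (g_nonneg w hw F t η m₂ j x S')
    have key : ∀ x : V, P * M w i (fun S => M w j (fun S' => cd w F t (S + S') *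
        (g w F t η m₂ i x S * g w F t η m₂ j x S'))) ≤
        η * M w j (fun S' => cd w F t S' * g w F t η m₂ j x S') := by
      intro x
      have e1 : M w j (fun S' => cd w F t S' * g w F t η m₂ j x S') =
          M w i (fun S => M w j (fun S' => cd w F t (S + S') * g w F t η m₂ j x S')) := by
        rw [M_comm]
        refine M_congr w j fun S' hS' => ?_
        rw [M_mul_right]
        congr 1
        rw [← M_cd w F t i S' (by omega)]
        exact M_congr w i fun S _ => by rw [add_comm]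
      rw [e1, ← M_mul_left, ← M_mul_left]
      refine M_mono w hw i fun S hSi => ?_
      rw [← M_mul_left, ← M_mul_left]
      refine M_mono w hw j fun S' hSj => ?_
      have h3 := g_small hS η hη m₂ i hi0 hi x S hSi
      have h4 : 0 ≤ cd w F t (S + S') * g w F t η m₂ j x S' :=
        mul_nonneg (cd_nonneg w hw F t _) (g_nonneg w hw F t η m₂ j x S')
      calc _ = (P * g w F t η m₂ i x S) * (cd w F t (S + S') * g w F t η m₂ j x S') := by ring
        _ ≤ η * (cd w F t (S + S') * g w F t η m₂ j x S') := mul_le_mul_of_nonneg_right h3 h4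
    rcases Nat.lt_or_ge j 2 with h | h
    · have hj1 : j = 1 := by omega
      have hT : P * TT w F t η m₂ i j ≤ η * (d * d) := by
        unfold TT
        rw [Finset.mul_sum]
        have : ∀ x : V, P * (w x * M w i (fun S => M w j (fun S' => cd w F t (S + S') *
          (g w F t η m₂ i x S * g w F t η m₂ j x S')))) =
          w x * (P * M w i (fun S => M w j (fun S' => cd w F t (S + S') *
          (g w F t η m₂ i x S * g w F t η m₂ j x S')))) := fun x => by ring
        simp only [this]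
        refine sum_w_le hw hw1 fun x => (key x).trans ?_
        rcases case_cd hS η m₂ j h1 hj x with ⟨_, h3⟩ | ⟨h3, _⟩
        · exact mul_le_mul_of_nonneg_left h3 hη
        · omega
      have hT0 : 0 ≤ TT w F t η m₂ i j := by
        unfold TT
        refine Finset.sum_nonneg fun x _ => mul_nonneg (hw x) (M_nonneg w hw _ fun S _ =>
          M_nonneg w hw _ fun S' _ => mul_nonneg (cd_nonneg w hw F t _)
            (mul_nonneg (g_nonneg w hw F t η m₂ i x S) (g_nonneg w hw F t η m₂ j x S')))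
      have e2 : t - (i + j) = t - 1 - i := by omega
      rw [e2] at hC ⊢
      have h5 := mul_le_mul_of_nonneg_right hC hT0
      refine (h5.trans hT).trans ?_
      nlinarith [sq_nonneg d, mul_nonneg p1 (sq_nonneg d), mul_nonneg p2 (sq_nonneg d)]
    · have hT : P * ((m₂ : ℝ) ^ (t - j) * TT w F t η m₂ i j) ≤ η * (η * d) := by
        unfold TT
        rw [Finset.mul_sum, Finset.mul_sum]
        have : ∀ x : V, P * ((m₂ : ℝ) ^ (t - j) * (w x * M w i (fun S => M w j (fun S' =>
          cd w F t (S + S') * (g w F t η m₂ i x S * g w F t η m₂ j x S'))))) =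
          w x * ((m₂ : ℝ) ^ (t - j) * (P * M w i (fun S => M w j (fun S' => cd w F t (S + S') *
          (g w F t η m₂ i x S * g w F t η m₂ j x S'))))) := fun x => by ring
        simp only [this]
        refine sum_w_le hw hw1 fun x => ?_
        rcases case_cd hS η m₂ j h1 hj x with ⟨h3, _⟩ | ⟨_, h3⟩
        · omega
        · have h6 : 0 ≤ (m₂ : ℝ) ^ (t - j) := by positivity
          calc _ ≤ (m₂ : ℝ) ^ (t - j) *
                (η * M w j (fun S' => cd w F t S' * g w F t η m₂ j x S')) :=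
                mul_le_mul_of_nonneg_left (key x) h6
            _ = η * ((m₂ : ℝ) ^ (t - j) *
                M w j (fun S' => cd w F t S' * g w F t η m₂ j x S')) := by ring
            _ ≤ η * (η * M w j (g w F t η m₂ j x)) := mul_le_mul_of_nonneg_left h3 hη
            _ ≤ η * (η * d) := mul_le_mul_of_nonneg_left
                (mul_le_mul_of_nonneg_left (M_g hS η m₂ j hj x) hη) hη
      have hT0 : 0 ≤ TT w F t η m₂ i j := by
        unfold TT
        refine Finset.sum_nonneg fun x _ => mul_nonneg (hw x) (M_nonneg w hw _ fun S _ =>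
          M_nonneg w hw _ fun S' _ => mul_nonneg (cd_nonneg w hw F t _)
            (mul_nonneg (g_nonneg w hw F t η m₂ i x S) (g_nonneg w hw F t η m₂ j x S')))
      have h5 := mul_le_mul_of_nonneg_right hC hT0
      have e3 : P * (m₂ : ℝ) ^ (t - j) = (m₂ : ℝ) ^ (t - 1) * (m₂ : ℝ) ^ (t - (i + j)) := by
        rw [hP, ← pow_add, ← pow_add]
        congr 1
        omega
      have h7 : (m₂ : ℝ) ^ (t - 1) * ((m₂ : ℝ) ^ (t - (i + j)) * TT w F t η m₂ i j) ≤
          η * (η * d) := by
        calc _ = P * (m₂ : ℝ) ^ (t - j) * TT w F t η m₂ i j := by rw [e3]; ring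
          _ ≤ _ := by rw [mul_assoc]; exact hT
      have h8 : (m₂ : ℝ) ^ (t - (i + j)) * TT w F t η m₂ i j ≤
          η ^ 2 / (d * (m₂ : ℝ) ^ (t - 1)) * d ^ 2 := by
        have hq : (0 : ℝ) < (m₂ : ℝ) ^ (t - 1) := by positivity
        have e4 : η ^ 2 / (d * (m₂ : ℝ) ^ (t - 1)) * d ^ 2 = η * (η * d) / (m₂ : ℝ) ^ (t - 1) := by
          field_simp
        rw [e4, le_div_iff₀ hq]
        linarith
      refine (h5.trans h8).trans ?_
      nlinarith [sq_nonneg d, mul_nonneg p1 (sq_nonneg d), mul_nonneg hη (sq_nonneg d)]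

theorem pair_term {w : V → ℝ} {F : Multiset V → Prop} {t : ℕ} {d : ℝ} (hS : Sys w F t d)
    (m m₂ : ℕ) (hm1 : 1 ≤ m) (hmm : m ≤ m₂) (hd : 0 < d) (η : ℝ) (hη : 0 ≤ η) (i j : ℕ)
    (hi : i ≤ t - 1) (hj : j ≤ t - 1) (h1 : 1 ≤ i + j) (h2 : i + j ≤ t) :
    (m.choose (t - (i + j)) : ℝ) * ∑ x, w x * M w (t - 1) (fun A => M w (t - 1) (fun A' =>
      ind (good w F t η m₂ (x ::ₘ A)) * ind (good w F t η m₂ (x ::ₘ A')) *
        ((A.powersetCard i).map (fun S => ((A'.powersetCard j).map
          (fun S' => cd w F t (S + S'))).sum)).sum)) ≤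
    ((t - 1).choose i : ℝ) * ((t - 1).choose j : ℝ) *
      ((m.choose (t - 1) : ℝ) * d + η + η ^ 2 / (d * (m₂ : ℝ) ^ (t - 1))) * d ^ 2 := by
  have ht := hS.ht
  rw [PT_eq]
  have main : (m.choose (t - (i + j)) : ℝ) * TT w F t η m₂ i j ≤
      ((m.choose (t - 1) : ℝ) * d + η + η ^ 2 / (d * (m₂ : ℝ) ^ (t - 1))) * d ^ 2 := by
    by_cases hc : i + 2 ≤ t ∧ 1 ≤ j
    · exact TT_bound hS m m₂ hm1 hmm hd η hη i j hc.1 hj hc.2 h2
    · rw [TT_symm, add_comm i j]
      exact TT_bound hS m m₂ hm1 hmm hd η hη j i (by omega) hi (by omega) (by omega)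
  have hc0 : (0 : ℝ) ≤ ((t - 1).choose i : ℝ) * ((t - 1).choose j : ℝ) := by positivity
  have := mul_le_mul_of_nonneg_left main hc0
  linarith

end

end Pool.Agent.H123R2.Gen
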