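import Pool.Agent.H123R2.GZ.QX
import Pool.Agent.H123R2.GZ.PT

set_option autoImplicit false
set_option linter.unusedSectionVars false
set_option linter.unusedVariables false

namespace Pool.Agent.H123R2.Gen

open Finset

section
variable {V : Type} [Fintype V] [DecidableEq V]

private theorem ms_sum_nonneg {α : Type} (s : Multiset α) (f : α → ℝ) (hf : ∀ a, 0 ≤ f a) :
    0 ≤ (s.map f).sum := by
  apply Multiset.sum_nonneg
  intro y hy
  obtain ⟨A, _, rfl⟩ := Multiset.mem_map.1 hy
  exact hf A

/-- good and bad edges -/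
private theorem F_split (w : V → ℝ) (F : Multiset V → Prop) (t : ℕ) (η : ℝ) (m₂ : ℕ)
    (e : Multiset V) : ind (F e) = ind (good w F t η m₂ e) + ind (bad w F t η m₂ e) := by
  unfold bad
  by_cases hg : good w F t η m₂ e
  · rw [ind_true hg, ind_true hg.1, ind_false (fun h => h.2 hg), add_zero]
  · rw [ind_false hg, zero_add]
    exact ind_congr ⟨fun h => ⟨h, hg⟩, fun h => h.1⟩

/-- squares of the good degrees -/
private theorem good_sq {w : V → ℝ} {F : Multiset V → Prop} {t : ℕ} {d : ℝ} (hS : Sys w F t d)
    (m₂ : ℕ) (η π : ℝ) (hbad : M w t (fun e => ind (bad w F t η m₂ e)) ≤ π * d) :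
    d ^ 2 - 2 * π * d ^ 2 ≤ ∑ x, w x * M w (t - 1) (fun A => M w (t - 1) (fun A' =>
      ind (good w F t η m₂ (x ::ₘ A)) * ind (good w F t η m₂ (x ::ₘ A')))) := by
  have ht := hS.ht
  have hd := d_nonneg hS
  have h5 : ∀ x, M w (t - 1) (fun A => ind (F (x ::ₘ A))) = d := by
    intro x
    rw [← hS.reg x]
    unfold cd
    rw [Multiset.card_singleton]
    refine M_congr w _ fun A _ => ?_
    rw [Multiset.singleton_add]
  set G : V → ℝ := fun x => M w (t - 1) (fun A => ind (good w F t η m₂ (x ::ₘ A))) with hG
  set b : V → ℝ := fun x => M w (t - 1) (fun A => ind (bad w F t η m₂ (x ::ₘ A))) with hb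
  have hGb : ∀ x, G x = d - b x := by
    intro x
    have h6 := h5 x
    have h7 : M w (t - 1) (fun A => ind (F (x ::ₘ A))) = G x + b x := by
      rw [hG, hb]
      simp only
      rw [← M_add_fun]
      exact M_congr w _ fun A _ => F_split w F t η m₂ _
    rw [h7] at h6
    linarith
  have hb0 : ∀ x, 0 ≤ b x := fun x => M_nonneg w hS.w0 _ fun _ _ => ind_nonneg _
  have hbs : ∑ x, w x * b x ≤ π * d := by
    refine le_trans (le_of_eq ?_) hbad
    obtain ⟨n, hn⟩ : ∃ n, t = n + 1 := ⟨t - 1, by omega⟩
    have hn1 : t - 1 = n := by omega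
    rw [hb]
    simp only [hn1]
    conv_rhs => rw [hn]
    rw [M_succ, ← hn]
  have h8 : ∀ x, M w (t - 1) (fun A => M w (t - 1) (fun A' =>
      ind (good w F t η m₂ (x ::ₘ A)) * ind (good w F t η m₂ (x ::ₘ A')))) = G x ^ 2 := by
    intro x
    have h9 : ∀ A : Multiset V, M w (t - 1) (fun A' =>
      ind (good w F t η m₂ (x ::ₘ A)) * ind (good w F t η m₂ (x ::ₘ A'))) =
        ind (good w F t η m₂ (x ::ₘ A)) * G x := fun A => M_mul_left _ _ _ _
    simp only [h9]
    rw [M_mul_right, sq]
  simp only [h8]
  calc d ^ 2 - 2 * π * d ^ 2 = d ^ 2 - 2 * d * (π * d) := by ring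
    _ ≤ d ^ 2 - 2 * d * ∑ x, w x * b x := by
        have := mul_le_mul_of_nonneg_left hbs (by linarith : 0 ≤ 2 * d)
        linarith
    _ = ∑ x, w x * (d ^ 2 - 2 * d * b x) := by
        rw [Finset.mul_sum]
        have h10 : ∑ x, w x * (d ^ 2 - 2 * d * b x) =
            ∑ x, (w x * d ^ 2 - 2 * d * (w x * b x)) :=
          Finset.sum_congr rfl fun x _ => by ring
        rw [h10, Finset.sum_sub_distrib, ← Finset.sum_mul, hS.w1, one_mul]
    _ ≤ ∑ x, w x * G x ^ 2 := by
        refine Finset.sum_le_sum fun x _ => mul_le_mul_of_nonneg_left ?_ (hS.w0 x)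
        rw [hGb x]
        nlinarith [sq_nonneg (b x)]

/-- sum of the binomial coefficients -/
private theorem binom_sum (a : ℕ) (ha : 2 ≤ a) :
    ∑ s ∈ Finset.Icc 1 (a + 1), ∑ i ∈ range (s + 1), ((a.choose i : ℝ) * (a.choose (s - i) : ℝ)) ≤
      4 ^ a := by
  have h1 : ∀ s : ℕ, ∑ i ∈ range (s + 1), ((a.choose i : ℝ) * (a.choose (s - i) : ℝ)) =
      ((2 * a).choose s : ℝ) := by
    intro s
    have h2 := Nat.add_choose_eq a a s
    rw [Finset.Nat.sum_antidiagonal_eq_sum_range_succ_mk] at h2
    rw [two_mul, h2]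
    push_cast
    rfl
  simp only [h1]
  have h3 : Finset.Icc 1 (a + 1) ⊆ range (2 * a + 1) := by
    intro s hs
    rw [mem_Icc] at hs
    rw [mem_range]
    omega
  have h4 := Nat.sum_range_choose (2 * a)
  calc ∑ s ∈ Finset.Icc 1 (a + 1), ((2 * a).choose s : ℝ) ≤
        ∑ s ∈ range (2 * a + 1), ((2 * a).choose s : ℝ) :=
        Finset.sum_le_sum_of_subset_of_nonneg h3 fun _ _ _ => by positivity
    _ = ((2 ^ (2 * a) : ℕ) : ℝ) := by
        rw [← h4]
        push_cast
        rfl
    _ = 4 ^ a := by
        push_cast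
        rw [pow_mul]
        norm_num

theorem b_one {w : V → ℝ} {F : Multiset V → Prop} {t : ℕ} {d : ℝ} (hS : Sys w F t d)
    (m m₂ : ℕ) (hm : t ≤ m) (hmm : m ≤ m₂) (hd : 0 < d) (η π : ℝ) (hη : 0 ≤ η) (hπ : 0 ≤ π)
    (hqpos : 0 < Q w F t m 0)
    (hq : ∀ b : ℕ, b ≤ 2 * t → Q w F t (m - b) 0 ≤ 2 * Q w F t m 0)
    (hbad : M w t (fun e => ind (bad w F t η m₂ e)) ≤ π * d)
    (hsm : 2 * π + 4 ^ t * ((m.choose (t - 1) : ℝ) * d + η +
      η ^ 2 / (d * (m₂ : ℝ) ^ (t - 1))) ≤ 1 / 2) :
    d ^ 2 / 2 ≤ ∑ x, w x * M w (2 * (t - 1)) (fun R => ind (LL w F t η m₂ m x R)) := by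
  have ht := hS.ht
  set q : ℝ := Q w F t m 0 with hqdef
  set B : ℝ := (m.choose (t - 1) : ℝ) * d + η + η ^ 2 / (d * (m₂ : ℝ) ^ (t - 1)) with hB
  have hB0 : 0 ≤ B := by rw [hB]; positivity
  set g : V → Multiset V → ℝ := fun x A => ind (good w F t η m₂ (x ::ₘ A)) with hg
  have hg0 : ∀ x A, 0 ≤ g x A := fun x A => ind_nonneg _
  have hg1 : ∀ x A, g x A ≤ 1 := fun x A => ind_le_one _
  -- the loss
  set T : Multiset V → Multiset V → ℝ := fun A A' => ∑ s ∈ Finset.Icc 1 t,
    ∑ i ∈ range (s + 1), (m.choose (t - s) : ℝ) * ((A.powersetCard i).map (fun S =>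
      ((A'.powersetCard (s - i)).map (fun S' => cd w F t (S + S'))).sum)).sum with hT
  have hcd0 : ∀ X, 0 ≤ cd w F t X := fun X => cd_nonneg w hS.w0 F t X
  -- pointwise bound
  have hpt : ∀ (x : V) (A A' : Multiset V), A.card = t - 1 → A'.card = t - 1 →
      g x A * g x A' - 4 * (g x A * g x A' * T A A') ≤ ind (LL w F t η m₂ m x (A + A')) := by
    intro x A A' hA hA'
    have hgg : 0 ≤ g x A * g x A' := mul_nonneg (hg0 x A) (hg0 x A')
    have hT0 : 0 ≤ T A A' := by
      rw [hT]
      simp only
      refine Finset.sum_nonneg fun s _ => Finset.sum_nonneg fun i _ => ?_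
      refine mul_nonneg (by positivity) (ms_sum_nonneg _ _ fun S => ms_sum_nonneg _ _ fun S' => ?_)
      exact hcd0 _
    by_cases hga : good w F t η m₂ (x ::ₘ A)
    · by_cases hga' : good w F t η m₂ (x ::ₘ A')
      · by_cases hQ : q ≤ 2 * Q w F t m (A + A')
        · have hLL : LL w F t η m₂ m x (A + A') := ⟨⟨A, A', hA, hA', rfl, hga, hga'⟩, hQ⟩
          rw [ind_true hLL]
          have h1 : g x A * g x A' ≤ 1 := mul_le_one₀ (hg1 x A) (hg0 x A') (hg1 x A')
          have h2 : 0 ≤ g x A * g x A' * T A A' := mul_nonneg hgg hT0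
          linarith
        · push Not at hQ
          have h1 := Q_loss hS m hm hq (A + A')
          have h2 : ∑ s ∈ Finset.Icc 1 t, (m.choose (t - s) : ℝ) *
              (((A + A').powersetCard s).map (fun T => cd w F t T)).sum = T A A' := by
            rw [hT]
            simp only
            refine Finset.sum_congr rfl fun s _ => ?_
            rw [pc_add, Finset.mul_sum]
          rw [h2] at h1
          have h3 : 1 ≤ 4 * T A A' := by
            have h4 : q / 2 < q - Q w F t m (A + A') := by linarith
            have h5 : q * 1 < q * (4 * T A A') := by nlinarith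
            exact (lt_of_mul_lt_mul_left h5 hqpos.le).le
          have h6 : g x A * g x A' * 1 ≤ g x A * g x A' * (4 * T A A') :=
            mul_le_mul_of_nonneg_left h3 hgg
          have h7 := ind_nonneg (LL w F t η m₂ m x (A + A'))
          nlinarith
      · have : g x A' = 0 := ind_false hga'
        rw [this]
        simp only [mul_zero, zero_mul, sub_zero]
        exact ind_nonneg _
    · have : g x A = 0 := ind_false hga
      rw [this]
      simp only [mul_zero, zero_mul, sub_zero]
      exact ind_nonneg _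
  -- integrate
  have h2t : 2 * (t - 1) = (t - 1) + (t - 1) := by ring
  have hint : ∑ x, w x * M w (t - 1) (fun A => M w (t - 1) (fun A' =>
        g x A * g x A' - 4 * (g x A * g x A' * T A A'))) ≤
      ∑ x, w x * M w (2 * (t - 1)) (fun R => ind (LL w F t η m₂ m x R)) := by
    refine Finset.sum_le_sum fun x _ => mul_le_mul_of_nonneg_left ?_ (hS.w0 x)
    rw [h2t, M_add]
    refine M_mono w hS.w0 _ fun A hA => M_mono w hS.w0 _ fun A' hA' => ?_
    exact hpt x A A' hA hA'
  refine le_trans ?_ hint
  -- split the main term and the loss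
  have hsplit : ∑ x, w x * M w (t - 1) (fun A => M w (t - 1) (fun A' =>
        g x A * g x A' - 4 * (g x A * g x A' * T A A'))) =
      ∑ x, w x * M w (t - 1) (fun A => M w (t - 1) (fun A' => g x A * g x A')) -
        4 * ∑ x, w x * M w (t - 1) (fun A => M w (t - 1) (fun A' =>
          g x A * g x A' * T A A')) := by
    rw [Finset.mul_sum, ← Finset.sum_sub_distrib]
    refine Finset.sum_congr rfl fun x _ => ?_
    have h1 : ∀ A : Multiset V, M w (t - 1) (fun A' =>
        g x A * g x A' - 4 * (g x A * g x A' * T A A')) =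
        M w (t - 1) (fun A' => g x A * g x A') -
          4 * M w (t - 1) (fun A' => g x A * g x A' * T A A') := by
      intro A
      rw [M_sub_fun]
      congr 1
      exact M_mul_left _ _ _ _
    simp only [h1]
    have h2 : M w (t - 1) (fun A => M w (t - 1) (fun A' => g x A * g x A') -
          4 * M w (t - 1) (fun A' => g x A * g x A' * T A A')) =
        M w (t - 1) (fun A => M w (t - 1) (fun A' => g x A * g x A')) -
          4 * M w (t - 1) (fun A => M w (t - 1) (fun A' => g x A * g x A' * T A A')) := by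
      rw [M_sub_fun]
      congr 1
      exact M_mul_left _ _ _ _
    rw [h2]
    ring
  rw [hsplit]
  have hmain := good_sq hS m₂ η π hbad
  -- the loss
  have hloss : ∑ x, w x * M w (t - 1) (fun A => M w (t - 1) (fun A' =>
          g x A * g x A' * T A A')) ≤ 4 ^ (t - 1) * B * d ^ 2 := by
    have e1 : ∑ x, w x * M w (t - 1) (fun A => M w (t - 1) (fun A' =>
          g x A * g x A' * T A A')) = ∑ s ∈ Finset.Icc 1 t, ∑ i ∈ range (s + 1),
        ((m.choose (t - s) : ℝ) * ∑ x, w x * M w (t - 1) (fun A => M w (t - 1) (fun A' =>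
          g x A * g x A' * ((A.powersetCard i).map (fun S =>
            ((A'.powersetCard (s - i)).map (fun S' => cd w F t (S + S'))).sum)).sum))) := by
      have e2 : ∀ x, M w (t - 1) (fun A => M w (t - 1) (fun A' =>
          g x A * g x A' * T A A')) = ∑ s ∈ Finset.Icc 1 t, ∑ i ∈ range (s + 1),
          (m.choose (t - s) : ℝ) * M w (t - 1) (fun A => M w (t - 1) (fun A' =>
          g x A * g x A' * ((A.powersetCard i).map (fun S =>
            ((A'.powersetCard (s - i)).map (fun S' => cd w F t (S + S'))).sum)).sum)) := by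
        intro x
        have e3 : ∀ A : Multiset V, M w (t - 1) (fun A' => g x A * g x A' * T A A') =
            ∑ s ∈ Finset.Icc 1 t, ∑ i ∈ range (s + 1),
          (m.choose (t - s) : ℝ) * M w (t - 1) (fun A' =>
          g x A * g x A' * ((A.powersetCard i).map (fun S =>
            ((A'.powersetCard (s - i)).map (fun S' => cd w F t (S + S'))).sum)).sum) := by
          intro A
          have e4 : M w (t - 1) (fun A' => g x A * g x A' * T A A') =
              M w (t - 1) (fun A' => ∑ s ∈ Finset.Icc 1 t, ∑ i ∈ range (s + 1),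
                (m.choose (t - s) : ℝ) * (g x A * g x A' * ((A.powersetCard i).map (fun S =>
            ((A'.powersetCard (s - i)).map (fun S' => cd w F t (S + S'))).sum)).sum)) := by
            refine M_congr w _ fun A' _ => ?_
            rw [hT]
            simp only
            rw [Finset.mul_sum]
            refine Finset.sum_congr rfl fun s _ => ?_
            rw [Finset.mul_sum]
            refine Finset.sum_congr rfl fun i _ => ?_
            ring
          rw [e4, M_sum]
          refine Finset.sum_congr rfl fun s _ => ?_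
          rw [M_sum]
          exact Finset.sum_congr rfl fun i _ => M_mul_left _ _ _ _
        simp only [e3]
        rw [M_sum]
        refine Finset.sum_congr rfl fun s _ => ?_
        rw [M_sum]
        exact Finset.sum_congr rfl fun i _ => M_mul_left _ _ _ _
      simp only [e2]
      simp only [Finset.mul_sum]
      rw [Finset.sum_comm]
      refine Finset.sum_congr rfl fun s _ => ?_
      rw [Finset.sum_comm]
      refine Finset.sum_congr rfl fun i _ => ?_
      refine Finset.sum_congr rfl fun x _ => ?_
      ring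
    rw [e1]
    have e5 : ∀ s ∈ Finset.Icc 1 t, ∀ i ∈ range (s + 1),
        ((m.choose (t - s) : ℝ) * ∑ x, w x * M w (t - 1) (fun A => M w (t - 1) (fun A' =>
          g x A * g x A' * ((A.powersetCard i).map (fun S =>
            ((A'.powersetCard (s - i)).map (fun S' => cd w F t (S + S'))).sum)).sum))) ≤
        (((t - 1).choose i : ℝ) * ((t - 1).choose (s - i) : ℝ)) * (B * d ^ 2) := by
      intro s hs i hi
      rw [mem_Icc] at hs
      rw [mem_range] at hi
      by_cases hi1 : i ≤ t - 1
      · by_cases hj1 : s - i ≤ t - 1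
        · have h1 := pair_term hS m m₂ (by omega) hmm hd η hη i (s - i) hi1 hj1 (by omega)
            (by omega)
          have h2 : i + (s - i) = s := by omega
          rw [h2] at h1
          refine h1.trans (le_of_eq ?_)
          rw [hB]
          ring
        · have h3 : ∑ x, w x * M w (t - 1) (fun A => M w (t - 1) (fun A' =>
              g x A * g x A' * ((A.powersetCard i).map (fun S =>
              ((A'.powersetCard (s - i)).map (fun S' => cd w F t (S + S'))).sum)).sum)) = 0 := by
            refine Finset.sum_eq_zero fun x _ => ?_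
            have h4 : M w (t - 1) (fun A => M w (t - 1) (fun A' =>
              g x A * g x A' * ((A.powersetCard i).map (fun S =>
              ((A'.powersetCard (s - i)).map (fun S' => cd w F t (S + S'))).sum)).sum)) =
              M w (t - 1) (fun _ => 0) := by
              refine M_congr w _ fun A _ => ?_
              rw [← M_zero_fun w (t - 1)]
              refine M_congr w _ fun A' hA' => ?_
              rw [Multiset.powersetCard_eq_empty (s - i) (by omega : A'.card < s - i)]
              simp
            rw [h4, M_zero_fun, mul_zero]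
          rw [h3, mul_zero]
          positivity
      · have h3 : ∑ x, w x * M w (t - 1) (fun A => M w (t - 1) (fun A' =>
            g x A * g x A' * ((A.powersetCard i).map (fun S =>
            ((A'.powersetCard (s - i)).map (fun S' => cd w F t (S + S'))).sum)).sum)) = 0 := by
          refine Finset.sum_eq_zero fun x _ => ?_
          have h4 : M w (t - 1) (fun A => M w (t - 1) (fun A' =>
            g x A * g x A' * ((A.powersetCard i).map (fun S =>
            ((A'.powersetCard (s - i)).map (fun S' => cd w F t (S + S'))).sum)).sum)) =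
            M w (t - 1) (fun _ => 0) := by
            refine M_congr w _ fun A hA => ?_
            rw [← M_zero_fun w (t - 1)]
            refine M_congr w _ fun A' _ => ?_
            rw [Multiset.powersetCard_eq_empty i (by omega : A.card < i)]
            simp
          rw [h4, M_zero_fun, mul_zero]
        rw [h3, mul_zero]
        positivity
    refine (Finset.sum_le_sum fun s hs => Finset.sum_le_sum fun i hi => e5 s hs i hi).trans ?_
    simp only [← Finset.sum_mul]
    have h6 := binom_sum (t - 1) (by omega)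
    have h7 : t - 1 + 1 = t := by omega
    rw [h7] at h6
    calc _ ≤ 4 ^ (t - 1) * (B * d ^ 2) := mul_le_mul_of_nonneg_right h6 (by positivity)
      _ = _ := by ring
  have h4t : (4 : ℝ) ^ t = 4 * 4 ^ (t - 1) := by
    have : t = (t - 1) + 1 := by omega
    conv_lhs => rw [this, pow_succ]
    ring
  rw [h4t] at hsm
  have hd2 : 0 ≤ d ^ 2 := sq_nonneg d
  have hfin : (2 * π + 4 * 4 ^ (t - 1) * B) * d ^ 2 ≤ 1 / 2 * d ^ 2 :=
    mul_le_mul_of_nonneg_right hsm hd2
  have hmain' : d ^ 2 - 2 * π * d ^ 2 ≤
      ∑ x, w x * M w (t - 1) (fun A => M w (t - 1) (fun A' => g x A * g x A')) := hmain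
  nlinarith

end

end Pool.Agent.H123R2.Gen
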