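import Pool.Agent.H123R2.GZ.SM2
import Pool.Agent.H123R2.GZ.B1
import Pool.Agent.H123R2.GZ.B2

set_option autoImplicit false
set_option linter.unusedSectionVars false
set_option linter.unusedVariables false

namespace Pool.Agent.H123R2.Gen

open Finset

section
variable {V : Type} [Fintype V] [DecidableEq V]

/-- `P(LL x R)` is at most the mean number of ways to split `R` into two edges -/
private theorem LL_mean {w : V → ℝ} {F : Multiset V → Prop} {t : ℕ} {d : ℝ} (hS : Sys w F t d)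
    (m m₂ : ℕ) (η : ℝ) (x : V) :
    M w (2 * (t - 1)) (fun R => ind (LL w F t η m₂ m x R)) ≤
      ((2 * (t - 1)).choose (t - 1) : ℝ) * d ^ 2 := by
  have ht := hS.ht
  have h1 : M w (2 * (t - 1)) (fun R => ind (LL w F t η m₂ m x R)) ≤
      M w (2 * (t - 1)) (fun R => ((R.powersetCard (t - 1)).map
        (fun A => ind (F (x ::ₘ A)) * ind (F (x ::ₘ (R - A))))).sum) := by
    refine M_mono w hS.w0 _ fun R hR => ?_
    by_cases hL : LL w F t η m₂ m x R
    · rw [ind_true hL]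
      obtain ⟨⟨A, A', hA, hA', rfl, hg, hg'⟩, _⟩ := hL
      have hle : A ≤ A + A' := Multiset.le_add_right A A'
      have h2 := pc_ge_of_mem hle (fun B => ind (F (x ::ₘ B)) * ind (F (x ::ₘ (A + A' - B))))
        (fun Z => mul_nonneg (ind_nonneg _) (ind_nonneg _))
      rw [hA] at h2
      refine le_trans (le_of_eq ?_) h2
      have h3 : A + A' - A = A' := add_tsub_cancel_left A A'
      simp only [h3]
      rw [ind_true hg.1, ind_true hg'.1, mul_one]
    · rw [ind_false hL]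
      apply Multiset.sum_nonneg
      intro y hy
      obtain ⟨A, _, rfl⟩ := Multiset.mem_map.1 hy
      exact mul_nonneg (ind_nonneg _) (ind_nonneg _)
  refine h1.trans (le_of_eq ?_)
  rw [M_pc w (2 * (t - 1)) (t - 1) (fun A B => ind (F (x ::ₘ A)) * ind (F (x ::ₘ B)))]
  have h4 : 2 * (t - 1) - (t - 1) = t - 1 := by omega
  rw [h4]
  have h5 : M w (t - 1) (fun A => ind (F (x ::ₘ A))) = d := by
    rw [← hS.reg x]
    unfold cd
    rw [Multiset.card_singleton]
    refine M_congr w _ fun A _ => ?_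
    rw [Multiset.singleton_add]
  have h6 : ∀ A : Multiset V, M w (t - 1) (fun B => ind (F (x ::ₘ A)) * ind (F (x ::ₘ B))) =
      ind (F (x ::ₘ A)) * d := fun A => by rw [M_mul_left, h5]
  simp only [h6]
  rw [M_mul_right, h5]
  ring

theorem b_three {w : V → ℝ} {F : Multiset V → Prop} {t : ℕ} {d : ℝ} (hS : Sys w F t d)
    (m m₂ : ℕ) (hm : 4 * t ≤ m) (hmm : m ≤ m₂) (hd : 0 < d) (η π : ℝ) (hη : 0 ≤ η)
    (hη1 : 16 ^ t * η ≤ 1) (hπ : 0 ≤ π)
    (hqpos : 0 < Q w F t m 0)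
    (hq : ∀ b : ℕ, b ≤ 4 * t → Q w F t (m - b) 0 ≤ 2 * Q w F t m 0)
    (hbad : M w t (fun e => ind (bad w F t η m₂ e)) ≤ π * d)
    (hdm : d * (m₂ : ℝ) ^ (t - 1) ≤ η)
    (hch : (m.choose (t - 1) : ℝ) ≤ 2 * ((m - (t - 1)).choose (t - 1) : ℝ))
    (hv1 : (m.choose (t - 1) : ℝ) * d ≤ 1)
    (hsm : 2 * π + 4 ^ t * ((m.choose (t - 1) : ℝ) * d + η +
      η ^ 2 / (d * (m₂ : ℝ) ^ (t - 1))) ≤ 1 / 2) :
    ((m.choose (t - 1) : ℝ) * d) ^ 2 * Q w F t m 0 / (24 * 4 ^ t) ≤
      ∑ x, w x * M w m (fun J => ind (Indep F t J ∧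
        ∃ R : Multiset V, R ≤ J ∧ R.card = 2 * (t - 1) ∧ LL w F t η m₂ m x R)) := by
  have ht := hS.ht
  set r : ℕ := 2 * (t - 1) with hr
  set q : ℝ := Q w F t m 0 with hqdef
  set P : V → ℝ := fun x => M w m (fun J => ind (Indep F t J ∧
        ∃ R : Multiset V, R ≤ J ∧ R.card = r ∧ LL w F t η m₂ m x R)) with hP
  set μ : V → ℝ := fun x => M w r (fun R => ind (LL w F t η m₂ m x R)) with hμ
  set C : ℝ := (m.choose (t - 1) : ℝ) with hC
  have hC0 : 0 ≤ C := by rw [hC]; positivity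
  have hη1' : η ≤ 1 := by
    have : (1 : ℝ) ≤ 16 ^ t := one_le_pow₀ (by norm_num)
    nlinarith
  -- binomial identity
  have hbin : (m.choose r : ℝ) * (r.choose (t - 1) : ℝ) =
      C * ((m - (t - 1)).choose (t - 1) : ℝ) := by
    have h1 := Nat.choose_mul (n := m) (k := r) (s := t - 1) (by omega)
    have h2 : r - (t - 1) = t - 1 := by omega
    rw [h2] at h1
    rw [hC]
    exact_mod_cast h1
  have hD : ((m - (t - 1)).choose (t - 1) : ℝ) ≤ C := by
    rw [hC]
    exact_mod_cast Nat.choose_le_choose (t - 1) (by omega : m - (t - 1) ≤ m)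
  have hP0 : ∀ x, 0 ≤ P x := fun x => M_nonneg w hS.w0 _ fun J _ => ind_nonneg _
  have hμ0 : ∀ x, 0 ≤ μ x := fun x => M_nonneg w hS.w0 _ fun J _ => ind_nonneg _
  have h4t : (4 : ℝ) ^ t = 4 * 4 ^ (t - 1) := by
    have : t = (t - 1) + 1 := by omega
    conv_lhs => rw [this, pow_succ]
    ring
  have h16 : (16 : ℝ) ^ t = 4 ^ t * 4 ^ t := by
    rw [← mul_pow]; norm_num
  have h2r : (2 : ℝ) ^ r = 4 ^ (t - 1) := by
    rw [hr, pow_mul]; norm_num
  -- one vertex
  have hx : ∀ x, (m.choose r : ℝ) * μ x * q / 24 ≤ P x := by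
    intro x
    have hA := lemmaA w hS.w0 hS.w1 F t m r (by omega) (by omega) (LL w F t η m₂ m x)
      (4 ^ t * η) (by positivity) hqpos (fun b hb => hq b (by omega))
      (by
        intro S hS0 hS1 _
        exact b_two hS m m₂ (by omega) hmm η hη hη1' hdm x S hS0 hS1)
      (fun R _ hL => hL.2)
    have hmu1 : (m.choose r : ℝ) * μ x ≤ 1 := by
      have h1 := LL_mean hS m m₂ η x
      have h2 : (m.choose r : ℝ) * μ x ≤ (m.choose r : ℝ) * ((r.choose (t - 1) : ℝ) * d ^ 2) :=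
        mul_le_mul_of_nonneg_left h1 (by positivity)
      refine h2.trans ?_
      calc (m.choose r : ℝ) * ((r.choose (t - 1) : ℝ) * d ^ 2) =
          ((m.choose r : ℝ) * (r.choose (t - 1) : ℝ)) * d ^ 2 := by ring
        _ = C * ((m - (t - 1)).choose (t - 1) : ℝ) * d ^ 2 := by rw [hbin]
        _ ≤ C * C * d ^ 2 := by gcongr
        _ = (C * d) ^ 2 := by ring
        _ ≤ 1 := by
            apply pow_le_one₀ (by positivity) hv1
    have hth : 2 ^ r * (4 ^ t * η) ≤ 1 := by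
      rw [h2r]
      calc (4 : ℝ) ^ (t - 1) * (4 ^ t * η) ≤ 4 ^ t * (4 ^ t * η) := by
            apply mul_le_mul_of_nonneg_right _ (by positivity)
            rw [h4t]
            have : (0 : ℝ) < 4 ^ (t - 1) := by positivity
            linarith
        _ = 16 ^ t * η := by rw [h16]; ring
        _ ≤ 1 := hη1
    have hA' : (m.choose r : ℝ) * μ x * q ≤ 8 * (1 + 2 ^ r * (4 ^ t * η) +
        (m.choose r : ℝ) * μ x) * P x := hA
    have h3 : 8 * (1 + 2 ^ r * (4 ^ t * η) + (m.choose r : ℝ) * μ x) * P x ≤ 24 * P x := by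
      apply mul_le_mul_of_nonneg_right _ (hP0 x)
      linarith
    have := hA'.trans h3
    linarith
  -- sum over the vertices
  have hsum : (m.choose r : ℝ) * q / 24 * ∑ x, w x * μ x ≤ ∑ x, w x * P x := by
    rw [Finset.mul_sum]
    refine Finset.sum_le_sum fun x _ => ?_
    calc (m.choose r : ℝ) * q / 24 * (w x * μ x) = w x * ((m.choose r : ℝ) * μ x * q / 24) := by
          ring
      _ ≤ w x * P x := mul_le_mul_of_nonneg_left (hx x) (hS.w0 x)
  have hb1 := b_one hS m m₂ (by omega) hmm hd η π hη hπ hqpos (fun b hb => hq b (by omega))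
    hbad hsm
  have hcr : (r.choose (t - 1) : ℝ) ≤ 4 ^ (t - 1) := by
    rw [← h2r]
    exact_mod_cast Nat.choose_le_two_pow r (t - 1)
  have hmr : C ^ 2 / 2 ≤ (m.choose r : ℝ) * 4 ^ (t - 1) := by
    calc C ^ 2 / 2 = C * (C / 2) := by ring
      _ ≤ C * ((m - (t - 1)).choose (t - 1) : ℝ) := by
          apply mul_le_mul_of_nonneg_left _ hC0
          linarith
      _ = (m.choose r : ℝ) * (r.choose (t - 1) : ℝ) := hbin.symm
      _ ≤ (m.choose r : ℝ) * 4 ^ (t - 1) := by gcongr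
  refine le_trans ?_ hsum
  have h5 : (m.choose r : ℝ) * q / 24 * (d ^ 2 / 2) ≤ (m.choose r : ℝ) * q / 24 * ∑ x, w x * μ x :=
    mul_le_mul_of_nonneg_left hb1 (by positivity)
  refine le_trans ?_ h5
  rw [div_le_iff₀ (by positivity), h4t]
  have h6 : (C * d) ^ 2 * q = (C ^ 2 / 2) * (2 * d ^ 2 * q) := by ring
  rw [h6]
  have h7 : (m.choose r : ℝ) * q / 24 * (d ^ 2 / 2) * (24 * (4 * 4 ^ (t - 1))) =
      ((m.choose r : ℝ) * 4 ^ (t - 1)) * (2 * d ^ 2 * q) := by ring
  rw [h7]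
  exact mul_le_mul_of_nonneg_right hmr (by positivity)

end

end Pool.Agent.H123R2.Gen
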