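import Pool.Agent.H123R2.GZ.CH1

set_option autoImplicit false
set_option linter.unusedSectionVars false
set_option linter.unusedVariables false

namespace Pool.Agent.H123R2.Gen

open Finset

section
variable {V : Type} [Fintype V] [DecidableEq V]

theorem q_start {w : V → ℝ} {F : Multiset V → Prop} {t : ℕ} {d : ℝ} (hS : Sys w F t d) :
    Q w F t (t - 1) 0 = 1 ∧ Q w F t t 0 = 1 - d := by
  have ht := hS.ht
  refine ⟨Q_small w hS.w1 F t (t - 1) 0 (by rw [Multiset.card_zero]; omega), ?_⟩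
  have h1 : Q w F t t 0 = M w t (fun J => 1 - ind (F J)) := by
    unfold Q
    refine M_congr w t fun J hJ => ?_
    rw [zero_add, ← ind_not]
    apply ind_congr
    constructor
    · intro h
      exact h J le_rfl hJ
    · intro h Z hZ hc hF
      have : Z = J := Multiset.eq_of_le_of_card_le hZ (by rw [hc, hJ])
      rw [this] at hF
      exact h hF
  rw [h1, M_sub_fun, M_const w hS.w1]
  have h2 := cd_zero hS
  unfold cd at h2
  rw [Multiset.card_zero, Nat.sub_zero] at h2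
  simp only [zero_add] at h2
  rw [h2]

theorem chain_mono {w : V → ℝ} {F : Multiset V → Prop} {t : ℕ} {d : ℝ} (hS : Sys w F t d)
    (m n : ℕ) (h1 : t - 1 ≤ m) (h2 : m ≤ n) (hn : 0 < Q w F t n 0) :
    (m.choose (t - 1) : ℝ) * (Q w F t n 0 - Q w F t (n + 1) 0) * Q w F t m 0 ≤
      (n.choose (t - 1) : ℝ) * (Q w F t m 0 - Q w F t (m + 1) 0) * Q w F t n 0 := by
  have ht := hS.ht
  induction n, h2 using Nat.le_induction with
  | base => exact le_of_eq (by ring)
  | succ n hmn ih =>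
    have hanti : Q w F t (n + 1) 0 ≤ Q w F t n 0 := Q_anti_m w hS.w0 hS.w1 F t (by omega) 0
    have hqn : 0 < Q w F t n 0 := lt_of_lt_of_le hn hanti
    have ih' := ih hqn
    have hstep := chain_step hS n
    have hqm : 0 ≤ Q w F t m 0 := Q_nonneg w hS.w0 F t m 0
    have hchoose : ((n.choose (t - 1) : ℕ) : ℝ) * ((n : ℝ) + 1)
        = (((n + 1).choose (t - 1) : ℕ) : ℝ) * ((n : ℝ) + 2 - t) := by
      have h3 := Nat.choose_mul_succ_eq n (t - 1)
      have h4 : ((n + 1 - (t - 1) : ℕ) : ℝ) = (n : ℝ) + 2 - t := by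
        have h5 : n + 1 - (t - 1) + t = n + 2 := by omega
        have h6 : ((n + 1 - (t - 1) : ℕ) : ℝ) + t = (n : ℝ) + 2 := by exact_mod_cast h5
        linarith
      have h5 : ((n.choose (t - 1) * (n + 1) : ℕ) : ℝ)
          = (((n + 1).choose (t - 1) * (n + 1 - (t - 1)) : ℕ) : ℝ) := by rw [h3]
      rw [Nat.cast_mul, Nat.cast_mul, h4] at h5
      rw [← h5]
      push_cast
      ring
    have hpos : 0 < (n : ℝ) + 2 - t := by
      have h5 : t ≤ n + 1 := by omega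
      have h6 : (t : ℝ) ≤ (n : ℝ) + 1 := by exact_mod_cast h5
      linarith
    set qm := Q w F t m 0
    set qm1 := Q w F t (m + 1) 0
    set qn := Q w F t n 0
    set qn1 := Q w F t (n + 1) 0
    set qn2 := Q w F t (n + 2) 0
    have hA : ((n : ℝ) + 2 - t) * qn * (qn1 - qn2) ≤ ((n : ℝ) + 1) * qn1 * (qn - qn1) := by
      nlinarith
    have hcm : (0 : ℝ) ≤ (m.choose (t - 1) : ℝ) := by positivity
    have hB : (m.choose (t - 1) : ℝ) * qm * (((n : ℝ) + 2 - t) * qn * (qn1 - qn2))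
        ≤ (m.choose (t - 1) : ℝ) * qm * (((n : ℝ) + 1) * qn1 * (qn - qn1)) :=
      mul_le_mul_of_nonneg_left hA (mul_nonneg hcm hqm)
    have hC : ((n : ℝ) + 1) * qn1 * ((m.choose (t - 1) : ℝ) * (qn - qn1) * qm)
        ≤ ((n : ℝ) + 1) * qn1 * ((n.choose (t - 1) : ℝ) * (qm - qm1) * qn) :=
      mul_le_mul_of_nonneg_left ih' (mul_nonneg (by positivity) hn.le)
    have hD : ((n : ℝ) + 2 - t) * qn * ((m.choose (t - 1) : ℝ) * (qn1 - qn2) * qm)
        ≤ ((n : ℝ) + 2 - t) * qn * (((n + 1).choose (t - 1) : ℝ) * (qm - qm1) * qn1) := by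
      calc ((n : ℝ) + 2 - t) * qn * ((m.choose (t - 1) : ℝ) * (qn1 - qn2) * qm)
          = (m.choose (t - 1) : ℝ) * qm * (((n : ℝ) + 2 - t) * qn * (qn1 - qn2)) := by ring
        _ ≤ (m.choose (t - 1) : ℝ) * qm * (((n : ℝ) + 1) * qn1 * (qn - qn1)) := hB
        _ = ((n : ℝ) + 1) * qn1 * ((m.choose (t - 1) : ℝ) * (qn - qn1) * qm) := by ring
        _ ≤ ((n : ℝ) + 1) * qn1 * ((n.choose (t - 1) : ℝ) * (qm - qm1) * qn) := hC
        _ = ((n.choose (t - 1) : ℝ) * ((n : ℝ) + 1)) * (qn1 * (qm - qm1) * qn) := by ring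
        _ = (((n + 1).choose (t - 1) : ℝ) * ((n : ℝ) + 2 - t)) * (qn1 * (qm - qm1) * qn) := by
          rw [hchoose]
        _ = _ := by ring
    exact le_of_mul_le_mul_left hD (mul_pos hpos hqn)

theorem chain_upper {w : V → ℝ} {F : Multiset V → Prop} {t : ℕ} {d : ℝ} (hS : Sys w F t d)
    (m : ℕ) (hm : 0 < Q w F t m 0) :
    Q w F t m 0 - Q w F t (m + 1) 0 ≤ (m.choose (t - 1) : ℝ) * d * Q w F t m 0 := by
  have ht := hS.ht
  obtain ⟨e1, e2⟩ := q_start hS
  by_cases h : t - 1 ≤ m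
  · have h1 := chain_mono hS (t - 1) m le_rfl h hm
    rw [show t - 1 + 1 = t by omega, e1, e2, Nat.choose_self] at h1
    have h2 : Q w F t m 0 - Q w F t (m + 1) 0 ≤
        (m.choose (t - 1) : ℝ) * (1 - (1 - d)) * Q w F t m 0 := by
      simpa using h1
    calc _ ≤ _ := h2
      _ = _ := by ring
  · rw [Q_small w hS.w1 F t m 0 (by rw [Multiset.card_zero]; omega),
      Q_small w hS.w1 F t (m + 1) 0 (by rw [Multiset.card_zero]; omega), sub_self]
    have := d_nonneg hS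
    positivity

theorem chain_lower {w : V → ℝ} {F : Multiset V → Prop} {t : ℕ} {d : ℝ} (hS : Sys w F t d)
    (K : ℕ) (hK : 0 < Q w F t K 0) (hK1 : Q w F t (K + 1) 0 = 0) (m : ℕ) (h1 : t - 1 ≤ m)
    (h2 : m ≤ K) :
    (m.choose (t - 1) : ℝ) * Q w F t m 0 ≤
      (K.choose (t - 1) : ℝ) * (Q w F t m 0 - Q w F t (m + 1) 0) := by
  have h3 := chain_mono hS m K h1 h2 hK
  rw [hK1, sub_zero] at h3
  have h4 : (m.choose (t - 1) : ℝ) * Q w F t m 0 * Q w F t K 0 ≤
      (K.choose (t - 1) : ℝ) * (Q w F t m 0 - Q w F t (m + 1) 0) * Q w F t K 0 := by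
    calc _ = (m.choose (t - 1) : ℝ) * Q w F t K 0 * Q w F t m 0 := by ring
      _ ≤ _ := h3
  exact le_of_mul_le_mul_right h4 hK

theorem boot {w : V → ℝ} {F : Multiset V → Prop} {t : ℕ} {d : ℝ} (hS : Sys w F t d)
    (N : ℕ) (hv : (N.choose (t - 1) : ℝ) * d < 1) (m : ℕ) (hm : m ≤ N + 1) :
    0 < Q w F t m 0 := by
  have ht := hS.ht
  have hd := d_nonneg hS
  induction m with
  | zero =>
    rw [Q_small w hS.w1 F t 0 0 (by rw [Multiset.card_zero]; omega)]
    exact one_pos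
  | succ m ih =>
    have hq := ih (by omega)
    have h1 := chain_upper hS m hq
    have h2 : ((m.choose (t - 1) : ℕ) : ℝ) ≤ ((N.choose (t - 1) : ℕ) : ℝ) := by
      exact_mod_cast Nat.choose_le_choose (t - 1) (by omega)
    have h3 : (m.choose (t - 1) : ℝ) * d * Q w F t m 0 ≤
        (N.choose (t - 1) : ℝ) * d * Q w F t m 0 := by gcongr
    have h4 : (N.choose (t - 1) : ℝ) * d * Q w F t m 0 < 1 * Q w F t m 0 :=
      mul_lt_mul_of_pos_right hv hq
    linarith

theorem boot_add {w : V → ℝ} {F : Multiset V → Prop} {t : ℕ} {d : ℝ} (hS : Sys w F t d)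
    (N : ℕ) (hv : (N.choose (t - 1) : ℝ) * d < 1) (m a : ℕ) (hm : m + a ≤ N + 1) :
    (1 - (a : ℝ) * ((N.choose (t - 1) : ℝ) * d)) * Q w F t m 0 ≤ Q w F t (m + a) 0 := by
  have hd := d_nonneg hS
  induction a with
  | zero => simp
  | succ a ih =>
    have ih' := ih (by omega)
    have hq : 0 < Q w F t (m + a) 0 := boot hS N hv (m + a) (by omega)
    have h1 := chain_upper hS (m + a) hq
    have h2 : (((m + a).choose (t - 1) : ℕ) : ℝ) ≤ ((N.choose (t - 1) : ℕ) : ℝ) := by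
      exact_mod_cast Nat.choose_le_choose (t - 1) (by omega)
    have h3 : ((m + a).choose (t - 1) : ℝ) * d * Q w F t (m + a) 0 ≤
        (N.choose (t - 1) : ℝ) * d * Q w F t (m + a) 0 := by gcongr
    have h4 : Q w F t (m + a) 0 ≤ Q w F t m 0 := Q_anti_m w hS.w0 hS.w1 F t (by omega) 0
    have h5 : (N.choose (t - 1) : ℝ) * d * Q w F t (m + a) 0 ≤
        (N.choose (t - 1) : ℝ) * d * Q w F t m 0 := by gcongr
    rw [← Nat.add_assoc]
    push_cast
    nlinarith

theorem boot_two {w : V → ℝ} {F : Multiset V → Prop} {t : ℕ} {d : ℝ} (hS : Sys w F t d)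
    (N : ℕ) (a : ℕ) (ha : 1 ≤ a) (hv : (a : ℝ) * ((N.choose (t - 1) : ℝ) * d) ≤ 1 / 2) (m b : ℕ)
    (hb : b ≤ a) (hm : m ≤ N + 1) : Q w F t (m - b) 0 ≤ 2 * Q w F t m 0 := by
  have hd := d_nonneg hS
  set v : ℝ := (N.choose (t - 1) : ℝ) * d with hv_def
  have hv0 : 0 ≤ v := by positivity
  have ha1 : (1 : ℝ) ≤ a := by exact_mod_cast ha
  have hv1 : v < 1 := by nlinarith
  have key : ∀ c : ℕ, c ≤ a → c ≤ m → Q w F t (m - c) 0 ≤ 2 * Q w F t m 0 := by
    intro c hc hcm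
    have h1 := boot_add hS N hv1 (m - c) c (by omega)
    rw [show m - c + c = m by omega, ← hv_def] at h1
    have hq : 0 ≤ Q w F t (m - c) 0 := Q_nonneg w hS.w0 F t _ 0
    have h2 : (c : ℝ) * v ≤ 1 / 2 := by
      have : (c : ℝ) ≤ a := by exact_mod_cast hc
      nlinarith
    nlinarith
  by_cases h : b ≤ m
  · exact key b hb h
  · have h1 := key m (by omega) le_rfl
    rw [show m - b = m - m by omega]
    exact h1

end

end Pool.Agent.H123R2.Gen
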