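import Pool.Agent.H123R2.GZ.HV1

set_option autoImplicit false
set_option linter.unusedSectionVars false
set_option linter.unusedVariables false

namespace Pool.Agent.H123R2.Gen

open Finset

section
variable {V : Type} [Fintype V] [DecidableEq V]

/-- the terms of the decomposition according to the size of a maximal heavy subset -/
private noncomputable def hterm (w : V → ℝ) (F : Multiset V → Prop) (t m : ℕ) (η : ℝ) (s : ℕ)
    (T Z : Multiset V) : ℝ :=
  ind (η < (m : ℝ) ^ (t - s) * cd w F t T) *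
    ind (F (T + Z) ∧ ∀ T' : Multiset V, T' ≤ T + Z → s < T'.card →
        T'.card < t → (m : ℝ) ^ (t - T'.card) * cd w F t T' ≤ η)

private theorem hterm_nonneg (w : V → ℝ) (F : Multiset V → Prop) (t m : ℕ) (η : ℝ) (s : ℕ)
    (T Z : Multiset V) : 0 ≤ hterm w F t m η s T Z :=
  mul_nonneg (ind_nonneg _) (ind_nonneg _)

private theorem sum_map_nonneg (S : Multiset (Multiset V)) (f : Multiset V → ℝ)
    (hf : ∀ Z, 0 ≤ f Z) : 0 ≤ (S.map f).sum := by
  apply Multiset.sum_nonneg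
  intro x hx
  obtain ⟨Z, _, rfl⟩ := Multiset.mem_map.1 hx
  exact hf Z

private theorem bad_le (w : V → ℝ) (F : Multiset V → Prop) (t m : ℕ) (η : ℝ) (e : Multiset V) :
    ind (bad w F t η m e) ≤ ∑ s ∈ Finset.Ico 2 t,
      ((e.powersetCard s).map (fun T => hterm w F t m η s T (e - T))).sum := by
  by_cases hb : bad w F t η m e
  · rw [ind_true hb]
    obtain ⟨hF, hg⟩ := hb
    have hex : ∃ T : Multiset V, T ≤ e ∧ 2 ≤ T.card ∧ T.card < t ∧
        η < (m : ℝ) ^ (t - T.card) * cd w F t T := by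
      by_contra hcon
      push Not at hcon
      exact hg ⟨hF, hcon⟩
    -- maximal size
    let P : ℕ → Prop := fun s => ∃ T : Multiset V, T ≤ e ∧ T.card = s ∧ 2 ≤ s ∧ s < t ∧
        η < (m : ℝ) ^ (t - s) * cd w F t T
    have hP : ∃ s, s ≤ t ∧ P s := by
      obtain ⟨T, h1, h2, h3, h4⟩ := hex
      exact ⟨T.card, h3.le, T, h1, rfl, h2, h3, h4⟩
    classical
    obtain ⟨s0, hs0t, hs0⟩ := hP
    have hmax := Nat.findGreatest_spec (P := P) hs0t hs0
    set s := Nat.findGreatest P t with hs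
    obtain ⟨T, hTe, hTs, hs2, hst, hTh⟩ := hmax
    have hmem : s ∈ Finset.Ico 2 t := Finset.mem_Ico.2 ⟨hs2, hst⟩
    have hone : hterm w F t m η s T (e - T) = 1 := by
      unfold hterm
      rw [ind_true hTh, ind_true, one_mul]
      rw [add_tsub_cancel_of_le hTe]
      refine ⟨hF, fun T' hT'e hT's hT't => ?_⟩
      by_contra hcon
      push Not at hcon
      have : P T'.card := ⟨T', hT'e, rfl, by omega, hT't, hcon⟩
      have h5 := Nat.le_findGreatest (P := P) hT't.le this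
      omega
    have h6 : (1 : ℝ) ≤ ((e.powersetCard s).map (fun T => hterm w F t m η s T (e - T))).sum := by
      have := pc_ge_of_mem hTe (fun T => hterm w F t m η s T (e - T))
        (fun Z => hterm_nonneg _ _ _ _ _ _ _ _)
      rw [hTs] at this
      calc (1 : ℝ) = (fun T => hterm w F t m η s T (e - T)) T := hone.symm
        _ ≤ _ := this
    refine h6.trans ?_
    exact Finset.single_le_sum (f := fun s =>
      ((e.powersetCard s).map (fun T => hterm w F t m η s T (e - T))).sum)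
      (fun i _ => sum_map_nonneg _ _ (fun Z => hterm_nonneg _ _ _ _ _ _ _ _)) hmem
  · rw [ind_false hb]
    exact Finset.sum_nonneg fun i _ => sum_map_nonneg _ _ (fun Z => hterm_nonneg _ _ _ _ _ _ _ _)

theorem heavy {w : V → ℝ} {F : Multiset V → Prop} {t : ℕ} {d : ℝ} (hS : Sys w F t d)
    (m : ℕ) (hm : 4 * t ≤ m) (hd : 0 < d) (η δ π : ℝ) (hη : 0 < η) (hη1 : 2 ^ t * η ≤ 1)
    (hδ : 0 ≤ δ) (hπ : 0 < π) (hπ1 : π ≤ 1) (hqpos : 0 < Q w F t m 0)
    (hq : ∀ b : ℕ, b ≤ 2 * t → Q w F t (m - b) 0 ≤ 2 * Q w F t m 0)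
    (NS : EA w F t (fun _ A => Q w F t m 0 - Q w F t m A) ≤ δ * d * Q w F t m 0)
    (hK : 200 * (2 * (t : ℝ)) ^ t * (t : ℝ) ^ 2 * 4 ^ t * δ ≤ π ^ 2 * η) :
    M w t (fun e => ind (bad w F t η m e)) ≤ π * d := by
  have ht : 3 ≤ t := hS.ht
  have ht0 : (3 : ℝ) ≤ t := by exact_mod_cast ht
  have h2t : (1 : ℝ) ≤ 2 ^ t := one_le_pow₀ (by norm_num)
  have h4t : (4 : ℝ) ^ t = 2 ^ t * 2 ^ t := by
    rw [← mul_pow]; norm_num
  have h2tt : (1 : ℝ) ≤ (2 * (t : ℝ)) ^ t := one_le_pow₀ (by linarith)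
  obtain ⟨X, hX⟩ : ∃ X : ℝ, X = (2 * (t : ℝ)) ^ t := ⟨_, rfl⟩
  obtain ⟨Y, hY⟩ : ∃ Y : ℝ, Y = (2 : ℝ) ^ t := ⟨_, rfl⟩
  rw [h4t] at hK
  rw [← hX, ← hY] at hK
  rw [← hX] at h2tt
  rw [← hY] at h2t hη1
  have hX0 : 0 < X := by linarith
  have hY0 : 0 < Y := by linarith
  have htY : 0 < (t : ℝ) * Y := by positivity
  have hη2 : η ≤ 1 := by nlinarith
  -- the parameters
  have hp0 : 0 < π / (t * Y) := by positivity
  have hp1 : π / (t * Y) ≤ 1 := by
    rw [div_le_one htY]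
    nlinarith
  have h8 : 8 * δ ≤ π / (t * Y) := by
    rw [le_div_iff₀ htY]
    have e1 : 8 * δ * (t * Y) ≤ 200 * X * (t : ℝ) ^ 2 * (Y * Y) * δ := by
      have a1 : (t : ℝ) * Y ≤ X * (t : ℝ) ^ 2 * (Y * Y) := by
        have b1 : (t : ℝ) * Y ≤ (t : ℝ) ^ 2 * (Y * Y) := by
          have c1 : (t : ℝ) ≤ (t : ℝ) ^ 2 := by nlinarith
          have c2 : Y ≤ Y * Y := by nlinarith
          exact mul_le_mul c1 c2 hY0.le (by positivity)
        have b2 : (t : ℝ) ^ 2 * (Y * Y) ≤ X * ((t : ℝ) ^ 2 * (Y * Y)) :=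
          le_mul_of_one_le_left (by positivity) h2tt
        calc (t : ℝ) * Y ≤ (t : ℝ) ^ 2 * (Y * Y) := b1
          _ ≤ X * ((t : ℝ) ^ 2 * (Y * Y)) := b2
          _ = X * (t : ℝ) ^ 2 * (Y * Y) := by ring
      have a2 : 8 * δ * (t * Y) ≤ 8 * δ * (X * (t : ℝ) ^ 2 * (Y * Y)) :=
        mul_le_mul_of_nonneg_left a1 (by positivity)
      have a3 : 0 ≤ δ * (X * (t : ℝ) ^ 2 * (Y * Y)) := by positivity
      nlinarith
    have e2 : π ^ 2 * η ≤ π := by
      have : π ^ 2 ≤ π := by nlinarith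
      calc π ^ 2 * η ≤ π * 1 := mul_le_mul this hη2 hη.le hπ.le
        _ = π := mul_one _
    linarith
  have h192 : 192 * (2 * (t : ℝ)) ^ t * δ < (π / (t * Y)) ^ 2 * η := by
    rw [← hX, div_pow, div_mul_eq_mul_div, lt_div_iff₀ (by positivity)]
    have e1 : 200 * X * δ * (t * Y) ^ 2 ≤ π ^ 2 * η := by
      calc 200 * X * δ * (t * Y) ^ 2 = 200 * X * (t : ℝ) ^ 2 * (Y * Y) * δ := by ring
        _ ≤ _ := hK
    rcases hδ.eq_or_lt with h0 | h0
    · rw [← h0]
      have : 0 < π ^ 2 * η := by positivity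
      simpa using this
    · have e2 : 192 * X * δ * (t * Y) ^ 2 < 200 * X * δ * (t * Y) ^ 2 := by
        have : 0 < X * δ * (t * Y) ^ 2 := by positivity
        nlinarith
      linarith
  -- each size
  have hsize : ∀ s ∈ Finset.Ico 2 t, M w t (fun e =>
      ((e.powersetCard s).map (fun T => hterm w F t m η s T (e - T))).sum) ≤
      Y * (π / (t * Y) * d) := by
    intro s hs
    rw [Finset.mem_Ico] at hs
    rw [M_pc]
    have e1 := heavy_size hS m hm hd η δ (π / (t * Y)) hη (by rw [← hY]; exact hη1) hδ hp0 hp1 h8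
      hqpos hq NS h192 s hs.1 hs.2
    have e2 : M w s (fun A => M w (t - s) (fun R => hterm w F t m η s A R)) =
        M w s (fun T => ind (η < (m : ℝ) ^ (t - s) * cd w F t T) *
      M w (t - s) (fun Z => ind (F (T + Z) ∧ ∀ T' : Multiset V, T' ≤ T + Z → s < T'.card →
        T'.card < t → (m : ℝ) ^ (t - T'.card) * cd w F t T' ≤ η))) := by
      refine M_congr w s fun T _ => ?_
      rw [← M_mul_left]
      rfl
    rw [e2]
    have e3 : (t.choose s : ℝ) ≤ Y := by
      rw [hY]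
      exact_mod_cast Nat.choose_le_two_pow t s
    have e4 : 0 ≤ π / (t * Y) * d := by positivity
    calc (t.choose s : ℝ) * _ ≤ (t.choose s : ℝ) * (π / (t * Y) * d) :=
          mul_le_mul_of_nonneg_left e1 (Nat.cast_nonneg _)
      _ ≤ Y * (π / (t * Y) * d) := mul_le_mul_of_nonneg_right e3 e4
  calc M w t (fun e => ind (bad w F t η m e))
      ≤ M w t (fun e => ∑ s ∈ Finset.Ico 2 t,
        ((e.powersetCard s).map (fun T => hterm w F t m η s T (e - T))).sum) :=
        M_mono w hS.w0 t fun e _ => bad_le w F t m η e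
    _ = ∑ s ∈ Finset.Ico 2 t, M w t (fun e =>
        ((e.powersetCard s).map (fun T => hterm w F t m η s T (e - T))).sum) := M_sum _ _ _ _
    _ ≤ ∑ s ∈ Finset.Ico 2 t, Y * (π / (t * Y) * d) := Finset.sum_le_sum hsize
    _ = ((t - 2 : ℕ) : ℝ) * (Y * (π / (t * Y) * d)) := by
        rw [Finset.sum_const, Nat.card_Ico, nsmul_eq_mul]
    _ ≤ (t : ℝ) * (Y * (π / (t * Y) * d)) := by
        apply mul_le_mul_of_nonneg_right _ (by positivity)
        exact_mod_cast Nat.sub_le t 2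
    _ = π * d := by
        field_simp

end

end Pool.Agent.H123R2.Gen
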