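import Pool.Agent.H123R2.GZ.NS
import Pool.Agent.H123R2.GZ.HV2
import Pool.Agent.H123R2.GZ.E2
import Pool.Agent.H123R2.GZ.B3

/-!
Section CO: one scale.
-/

set_option autoImplicit false
set_option linter.unusedSectionVars false
set_option linter.unusedVariables false

namespace Pool.Agent.H123R2.Gen

open Finset

variable {V : Type} [Fintype V] [DecidableEq V]

/-- pure algebra of the last step -/
private theorem co_alg {T a C4 v v' ρ q q' q1 e0 π η X E P B : ℝ} (hT : 0 ≤ T) (haT : a ≤ T)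
    (ha : 0 ≤ a)
    (hB0 : 0 ≤ B) (hB : B ≤ T ^ 2 / 2) (hC4 : 1 ≤ C4) {T2 : ℝ} (hT2 : T2 ≤ 2 * C4)
    (hv : 0 ≤ v) (hv'0 : 0 ≤ v') (hv' : v' ≤ v) (hρ : 0 ≤ ρ) (hq : 0 ≤ q) (hq' : q' ≤ 2 * q)
    (hq'0 : 0 ≤ q')
    (he0 : e0 ≤ v' * q') (he0' : 0 ≤ e0) (hqe : q' - q ≤ a * ((1 + ρ) * e0)) (hπ : 0 ≤ π)
    (hη : 0 ≤ η) (hX : 0 ≤ X)
    (hE : E ≤ q' * v' * (6 * π + 2 * v' + T2 * η + 2 * X))
    (hP : v ^ 2 * q / (24 * C4) ≤ P)
    (hmain : q - q1 ≤ v * (q' - a * e0 + B * E) - P)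
    (hsm : 2 * T * ρ + 2 * T ^ 2 * C4 * (6 * π + v + η + X) ≤ 1 / (48 * C4)) :
    q - q1 ≤ v * q * (1 - v / (48 * C4)) := by
  set Z : ℝ := 6 * π + v + η + X with hZ
  have hZ0 : 0 ≤ Z := by rw [hZ]; positivity
  have h1 : 6 * π + 2 * v' + T2 * η + 2 * X ≤ 2 * C4 * Z := by
    rw [hZ]
    have e1 : T2 * η ≤ 2 * C4 * η := by gcongr
    have e2 : π ≤ C4 * π := by nlinarith
    have e3 : v ≤ C4 * v := by nlinarith
    have e4 : X ≤ C4 * X := by nlinarith
    nlinarith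
  have h2 : E ≤ 2 * q * v * (2 * C4 * Z) := by
    refine hE.trans ?_
    calc q' * v' * (6 * π + 2 * v' + T2 * η + 2 * X) ≤ q' * v' * (2 * C4 * Z) := by gcongr
      _ ≤ 2 * q * v * (2 * C4 * Z) := by gcongr
  have h3 : B * E ≤ q * v * (2 * T ^ 2 * C4 * Z) := by
    have hnn : 0 ≤ 2 * q * v * (2 * C4 * Z) := by positivity
    calc B * E ≤ B * (2 * q * v * (2 * C4 * Z)) := by gcongr
      _ ≤ T ^ 2 / 2 * (2 * q * v * (2 * C4 * Z)) := by gcongr
      _ = _ := by ring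
  have h4 : e0 ≤ 2 * q * v := by
    refine he0.trans ?_
    calc v' * q' ≤ v * (2 * q) := by gcongr
      _ = _ := by ring
  have h5 : q' - a * e0 ≤ q + q * v * (2 * T * ρ) := by
    have e1 : a * ρ * e0 ≤ T * ρ * (2 * q * v) := by gcongr
    nlinarith
  have h6 : q' - a * e0 + B * E ≤ q + q * v * (1 / (48 * C4)) := by
    have : q * v * (2 * T * ρ + 2 * T ^ 2 * C4 * Z) ≤ q * v * (1 / (48 * C4)) := by gcongr
    nlinarith
  have h7 : v * (q' - a * e0 + B * E) ≤ v * (q + q * v * (1 / (48 * C4))) := by gcongr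
  have h8 : v * (q + q * v * (1 / (48 * C4))) - v ^ 2 * q / (24 * C4) =
      v * q * (1 - v / (48 * C4)) := by
    field_simp
    ring
  linarith

theorem core {w : V → ℝ} {F : Multiset V → Prop} {t : ℕ} {d : ℝ} (hS : Sys w F t d)
    (K m m₂ : ℕ) (hK : 0 < Q w F t K 0) (hK1 : Q w F t (K + 1) 0 = 0)
    (hm : 8 * t ≤ m) (hmm : m ≤ m₂) (hmK : m₂ + (t - 1) ≤ K) (hd : 0 < d)
    (η π ε ρ : ℝ) (hη : 0 < η) (hη1 : 16 ^ t * η ≤ 1) (hπ : 0 < π) (hπ1 : π ≤ 1) (hε : 0 ≤ ε)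
    (hdK : (K.choose (t - 1) : ℝ) * d ≤ 1 + ε)
    (hv2 : 4 * (t : ℝ) * (((m₂ + (t - 1)).choose (t - 1) : ℝ) * d) ≤ 1 / 2)
    (hKη : 200 * (2 * (t : ℝ)) ^ t * (t : ℝ) ^ 2 * 4 ^ t *
      (((t : ℝ) - 1) * (((m₂ + (t - 1)).choose (t - 1) : ℝ) * d) + ε) ≤ π ^ 2 * η)
    (hdm : d * (m₂ : ℝ) ^ (t - 1) ≤ η)
    (hρ : (m.choose (t - 1) : ℝ) ≤ (1 + ρ) * ((m - (t - 1)).choose (t - 1) : ℝ))
    (hsm : 2 * (t : ℝ) * ρ + 2 * (t : ℝ) ^ 2 * 4 ^ t * (6 * π + (m.choose (t - 1) : ℝ) * d + η +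
      η ^ 2 / (d * (m₂ : ℝ) ^ (t - 1))) ≤ 1 / (48 * 4 ^ t)) :
    1 ≤ (K.choose (t - 1) : ℝ) * d * (1 - (m.choose (t - 1) : ℝ) * d / (48 * 4 ^ t)) := by
  have ht3 : 3 ≤ t := hS.ht
  have hw0 := hS.w0
  have hw1 := hS.w1
  obtain ⟨a, rfl⟩ : ∃ a, t = a + 1 := ⟨t - 1, by omega⟩
  simp only [Nat.add_sub_cancel] at *
  set t : ℕ := a + 1 with ht
  have hta : (t : ℝ) = a + 1 := by rw [ht]; push_cast; ring
  have hT3 : (3 : ℝ) ≤ t := by exact_mod_cast ht3
  have ha0 : (0 : ℝ) ≤ a := by positivity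
  have h4t : (1 : ℝ) ≤ 4 ^ t := one_le_pow₀ (by norm_num)
  set q : ℕ → ℝ := fun n => Q w F t n 0 with hq
  set v2 : ℝ := ((m₂ + a).choose a : ℝ) * d with hv2def
  set v : ℝ := (m.choose a : ℝ) * d with hvdef
  set X : ℝ := η ^ 2 / (d * (m₂ : ℝ) ^ a) with hX
  have hX0 : 0 ≤ X := by rw [hX]; positivity
  have hv20 : 0 ≤ v2 := by rw [hv2def]; positivity
  have hv0 : 0 ≤ v := by rw [hvdef]; positivity
  have hvv2 : v ≤ v2 := by
    rw [hvdef, hv2def]
    have : m.choose a ≤ (m₂ + a).choose a := Nat.choose_le_choose a (by omega)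
    have h' : (m.choose a : ℝ) ≤ ((m₂ + a).choose a : ℝ) := by exact_mod_cast this
    gcongr
  have hv2small : v2 ≤ 1 / 2 / 12 := by nlinarith
  -- step 1
  have hboot : ∀ n b : ℕ, b ≤ 4 * t → n ≤ m₂ + a + 1 → q (n - b) ≤ 2 * q n := by
    intro n b hb hn
    apply boot_two hS (m₂ + a) (4 * t) (by omega) _ n b hb hn
    push_cast
    exact hv2
  have hqK : ∀ n, n ≤ K → 0 < q n := by
    intro n hn
    exact lt_of_lt_of_le hK (Q_anti_m w hw0 hw1 F t hn 0)
  have hqanti : ∀ {n n' : ℕ}, n ≤ n' → q n' ≤ q n := by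
    intro n n' h
    exact Q_anti_m w hw0 hw1 F t h 0
  -- step 2
  have hnear := nearly hS K m₂ hK hK1 hmK ε v2 hε hdK le_rfl (by linarith)
  -- step 3
  have h2t : (2 : ℝ) ^ t * η ≤ 1 := by
    refine le_trans ?_ hη1
    gcongr
    norm_num
  have hbad := heavy hS m₂ (by omega) hd η (((t : ℝ) - 1) * v2 + ε) π hη h2t
    (by
      have : 0 ≤ (t : ℝ) - 1 := by linarith
      positivity) hπ hπ1 (hqK m₂ (by omega))
    (fun b hb => hboot m₂ b (by omega) (by omega)) hnear hKη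
  -- ρ
  have hchpos : (0 : ℝ) < ((m - a).choose a : ℝ) := by
    exact_mod_cast Nat.choose_pos (by omega)
  have hmpos : (0 : ℝ) < (m.choose a : ℝ) := by
    exact_mod_cast Nat.choose_pos (by omega)
  have hchle : ((m - a).choose a : ℝ) ≤ (m.choose a : ℝ) := by
    exact_mod_cast Nat.choose_le_choose a (by omega)
  have hρ0 : 0 ≤ ρ := by
    by_contra hneg
    rw [not_le] at hneg
    nlinarith
  have hZ0 : 0 ≤ 6 * π + v + η + X := by positivity
  have h48 : 1 / (48 * (4 : ℝ) ^ t) ≤ 1 / 48 := by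
    apply one_div_le_one_div_of_le (by norm_num)
    linarith
  have hsm1 : 2 * (t : ℝ) ^ 2 * 4 ^ t * (6 * π + v + η + X) ≤ 1 / 48 := by
    have : 0 ≤ 2 * (t : ℝ) * ρ := by positivity
    linarith
  have hρ1 : ρ ≤ 1 := by
    have h0 : 0 ≤ 2 * (t : ℝ) ^ 2 * 4 ^ t * (6 * π + v + η + X) := by positivity
    have h1 : 2 * (t : ℝ) * ρ ≤ 1 / 48 := by linarith
    nlinarith
  -- step 4
  have hch2 : (m.choose a : ℝ) ≤ 2 * ((m - a).choose a : ℝ) := by
    refine hρ.trans ?_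
    gcongr
    linarith
  have hsm2 : 2 * π + 4 ^ t * (v + η + X) ≤ 1 / 2 := by
    have h1 : (1 : ℝ) ≤ 2 * (t : ℝ) ^ 2 := by nlinarith
    have h2 : 4 ^ t * (6 * π + v + η + X) ≤ 2 * (t : ℝ) ^ 2 * 4 ^ t * (6 * π + v + η + X) := by
      have : 0 ≤ (4 : ℝ) ^ t * (6 * π + v + η + X) := by positivity
      nlinarith
    have h3 : 2 * π ≤ 4 ^ t * (6 * π) := by nlinarith
    nlinarith
  have hP := b_three hS m m₂ (by omega) hmm hd η π hη.le hη1 hπ.le (hqK m (by omega))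
    (fun b hb => hboot m b hb (by omega)) hbad hdm hch2
    (by
      have : v ≤ 1 := by linarith
      exact this)
    hsm2
  simp only [ht, Nat.add_sub_cancel] at hP
  rw [← ht] at hP
  -- step 5
  have hE2 := E2_bound hS (m - a) m₂ (by omega) (by omega) hd η π hη.le hbad
    (fun b hb => hboot (m - a) b (by omega) (by omega))
  simp only [ht, Nat.add_sub_cancel] at hE2
  rw [← ht] at hE2
  -- step 6
  have hA := partA hS (m - a)
  simp only [ht, Nat.add_sub_cancel] at hA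
  rw [← ht] at hA
  -- step 7
  have hI := incr_upper hS η m₂ m
  simp only [ht, Nat.add_sub_cancel] at hI
  rw [← ht] at hI
  -- step 8
  set e0 : ℝ := q (m - a) - q (m - a + 1) with he0
  have he00 : 0 ≤ e0 := by
    rw [he0]
    linarith [hqanti (show m - a ≤ m - a + 1 by omega)]
  have hei : ∀ i, i < a → q (m - a + i) - q (m - a + i + 1) ≤ (1 + ρ) * e0 := by
    intro i hi
    have h1 := chain_mono hS (m - a) (m - a + i) (by omega) (by omega) (hqK _ (by omega))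
    simp only [ht, Nat.add_sub_cancel] at h1
    rw [← ht] at h1
    have h2 : ((m - a + i).choose a : ℝ) ≤ (m.choose a : ℝ) := by
      exact_mod_cast Nat.choose_le_choose a (by omega)
    have h3 : q (m - a + i) ≤ q (m - a) := hqanti (by omega)
    have h4 : 0 < q (m - a) := hqK _ (by omega)
    have h5 : ((m - a + i).choose a : ℝ) * e0 * q (m - a + i) ≤
        ((1 + ρ) * ((m - a).choose a : ℝ)) * e0 * q (m - a) := by
      have : 0 ≤ q (m - a + i) := (hqK _ (by omega)).le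
      have h6 : ((m - a + i).choose a : ℝ) ≤ (1 + ρ) * ((m - a).choose a : ℝ) := h2.trans hρ
      gcongr
    have h7 : ((m - a).choose a : ℝ) * (q (m - a + i) - q (m - a + i + 1)) * q (m - a) ≤
        ((1 + ρ) * ((m - a).choose a : ℝ)) * e0 * q (m - a) := h1.trans h5
    have h8 : ((m - a).choose a : ℝ) * (q (m - a + i) - q (m - a + i + 1)) ≤
        ((1 + ρ) * ((m - a).choose a : ℝ)) * e0 := le_of_mul_le_mul_right h7 h4
    have h9 : ((m - a).choose a : ℝ) * (q (m - a + i) - q (m - a + i + 1)) ≤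
        ((m - a).choose a : ℝ) * ((1 + ρ) * e0) := by linarith
    exact le_of_mul_le_mul_left h9 hchpos
  have hsum : ∀ i, i ≤ a → q (m - a) - q (m - a + i) ≤ i * ((1 + ρ) * e0) := by
    intro i
    induction i with
    | zero => intro _; simp
    | succ i ih =>
      intro hi
      have h1 := ih (by omega)
      have h2 := hei i (by omega)
      push_cast
      rw [show m - a + (i + 1) = m - a + i + 1 by omega]
      linarith
  have hqq : q (m - a) - q m ≤ a * ((1 + ρ) * e0) := by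
    have := hsum a le_rfl
    rwa [show m - a + a = m by omega] at this
  have he0up : e0 ≤ ((m - a).choose a : ℝ) * d * q (m - a) := by
    have := chain_upper hS (m - a) (hqK _ (by omega))
    simp only [ht, Nat.add_sub_cancel] at this
    rw [← ht] at this
    exact this
  have hv'v : ((m - a).choose a : ℝ) * d ≤ v := by
    rw [hvdef]
    gcongr
  have hv'0 : 0 ≤ ((m - a).choose a : ℝ) * d := by positivity
  -- combination
  set E2 : ℝ := M w 2 (fun P => B2 w F t (m - a) P * cd w F t P) with hE2def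
  set P2 : ℝ := ∑ x, w x * M w m (fun J => ind (Indep F t J ∧
        ∃ R : Multiset V, R ≤ J ∧ R.card = 2 * a ∧ LL w F t η m₂ m x R)) with hP2def
  have hB : ((a.choose 2 : ℕ) : ℝ) ≤ (t : ℝ) ^ 2 / 2 := by
    have h1 : (a.choose 2 : ℝ) ≤ (a : ℝ) ^ 2 / (Nat.factorial 2 : ℝ) := Nat.choose_le_pow_div 2 a
    have h2 : (a : ℝ) ^ 2 ≤ (t : ℝ) ^ 2 := by gcongr; linarith
    have h3 : ((Nat.factorial 2 : ℕ) : ℝ) = 2 := by norm_num [Nat.factorial]
    rw [h3] at h1
    linarith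
  have hmain : q m - q (m + 1) ≤ v * (q (m - a) - a * e0 + ((a.choose 2 : ℕ) : ℝ) * (E2 / d)) - P2 := by
    refine hI.trans ?_
    have h1 : (m.choose a : ℝ) * EA w F t (fun _ A => Q w F t (m - a) A) ≤
        (m.choose a : ℝ) * (d * q (m - a) - ((t : ℝ) - 1) * d * e0 +
          ((a.choose 2 : ℕ) : ℝ) * E2) := by
      gcongr
    have h2 : (m.choose a : ℝ) * (d * q (m - a) - ((t : ℝ) - 1) * d * e0 +
          ((a.choose 2 : ℕ) : ℝ) * E2) =
        v * (q (m - a) - a * e0 + ((a.choose 2 : ℕ) : ℝ) * (E2 / d)) := by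
      rw [hvdef, hta]
      field_simp
      ring
    linarith
  have hEd : E2 / d ≤ q (m - a) * (((m - a).choose a : ℝ) * d) *
      (6 * π + 2 * (((m - a).choose a : ℝ) * d) + 2 ^ (t + 1) * η + 2 * X) := by
    rw [div_le_iff₀ hd]
    refine hE2.trans (le_of_eq ?_)
    rw [hX]
    ring
  have h2t1 : (2 : ℝ) ^ (t + 1) ≤ 2 * 4 ^ t := by
    rw [pow_succ, mul_comm]
    gcongr
    norm_num
  have hkey := co_alg (T := (t : ℝ)) (a := (a : ℝ)) (C4 := (4 : ℝ) ^ t) (v := v)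
    (v' := ((m - a).choose a : ℝ) * d) (ρ := ρ) (q := q m) (q' := q (m - a)) (q1 := q (m + 1))
    (e0 := e0) (π := π) (η := η) (X := X) (E := E2 / d) (P := P2) (B := ((a.choose 2 : ℕ) : ℝ))
    (by positivity) (by linarith) ha0 (by positivity) hB h4t h2t1 hv0 hv'0 hv'v hρ0
    (hqK m (by omega)).le (hboot m a (by omega) (by omega)) (hqK _ (by omega)).le he0up he00 hqq
    hπ.le hη.le hX0 hEd hP hmain hsm
  -- step 9
  have hlow := chain_lower hS K hK hK1 m (by omega) (by omega)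
  simp only [ht, Nat.add_sub_cancel] at hlow
  rw [← ht] at hlow
  have hqm : 0 < q m := hqK m (by omega)
  have hfin : (m.choose a : ℝ) * q m * 1 ≤
      (m.choose a : ℝ) * q m * ((K.choose a : ℝ) * d * (1 - v / (48 * 4 ^ t))) := by
    rw [mul_one]
    calc (m.choose a : ℝ) * q m ≤ (K.choose a : ℝ) * (q m - q (m + 1)) := hlow
      _ ≤ (K.choose a : ℝ) * (v * q m * (1 - v / (48 * 4 ^ t))) := by gcongr
      _ = _ := by rw [hvdef]; ring
  exact le_of_mul_le_mul_left hfin (by positivity)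

end Pool.Agent.H123R2.Gen
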