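import Pool.Agent.H123R2.Gen.Defs

set_option autoImplicit false

namespace Pool.Agent.H123R2.Gen

/-- the system of a family of sets: repeated elements or members of the family -/
def FG {n : ℕ} (G : Finset (Finset (Fin n))) (Z : Multiset (Fin n)) : Prop :=
  ¬ Z.Nodup ∨ Z.toFinset ∈ G

end Pool.Agent.H123R2.Gen
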