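import Pool.Agent.H123R2.Gen.MC

/-! PR: the choice of the parameters -/

set_option autoImplicit false

namespace Pool.Agent.H123R2.Gen

open Finset

private theorem desc_ratio (n K : ℕ) (h : n ≤ K) : ∀ a : ℕ,
    n.descFactorial a * K ^ a ≤ K.descFactorial a * n ^ a := by
  intro a
  induction a with
  | zero => simp
  | succ a ih =>
    rw [Nat.descFactorial_succ, Nat.descFactorial_succ, pow_succ, pow_succ]
    have h1 : (n - a) * K ≤ (K - a) * n := by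
      rw [Nat.sub_mul, Nat.sub_mul, mul_comm n K]
      exact Nat.sub_le_sub_left (Nat.mul_le_mul_left a h) _
    calc (n - a) * n.descFactorial a * (K ^ a * K)
        = ((n - a) * K) * (n.descFactorial a * K ^ a) := by ring
      _ ≤ ((K - a) * n) * (K.descFactorial a * n ^ a) := Nat.mul_le_mul h1 ih
      _ = (K - a) * K.descFactorial a * (n ^ a * n) := by ring

private theorem choose_ratio (n K : ℕ) (h : n ≤ K) (a : ℕ) :
    n.choose a * K ^ a ≤ K.choose a * n ^ a := by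
  have h1 := desc_ratio n K h a
  rw [Nat.descFactorial_eq_factorial_mul_choose, Nat.descFactorial_eq_factorial_mul_choose,
    mul_assoc, mul_assoc] at h1
  exact Nat.le_of_mul_le_mul_left h1 (Nat.factorial_pos a)

private theorem desc_ratio2 (m K a : ℕ) (hm : 2 * a ≤ m) : ∀ i ≤ a,
    K.descFactorial i * m ^ i ≤ m.descFactorial i * (2 * K) ^ i := by
  intro i
  induction i with
  | zero => intro _; simp
  | succ i ih =>
    intro hi
    rw [Nat.descFactorial_succ, Nat.descFactorial_succ, pow_succ, pow_succ]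
    have h1 : (K - i) * m ≤ (m - i) * (2 * K) := by
      calc (K - i) * m ≤ K * (2 * (m - i)) := Nat.mul_le_mul (Nat.sub_le _ _) (by omega)
        _ = (m - i) * (2 * K) := by ring
    calc (K - i) * K.descFactorial i * (m ^ i * m)
        = ((K - i) * m) * (K.descFactorial i * m ^ i) := by ring
      _ ≤ ((m - i) * (2 * K)) * (m.descFactorial i * (2 * K) ^ i) :=
          Nat.mul_le_mul h1 (ih (by omega))
      _ = (m - i) * m.descFactorial i * ((2 * K) ^ i * (2 * K)) := by ring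

private theorem choose_ratio2 (m K a : ℕ) (hm : 2 * a ≤ m) :
    K.choose a * m ^ a ≤ m.choose a * (2 * K) ^ a := by
  have h1 := desc_ratio2 m K a hm a le_rfl
  rw [Nat.descFactorial_eq_factorial_mul_choose, Nat.descFactorial_eq_factorial_mul_choose,
    mul_assoc, mul_assoc] at h1
  exact Nat.le_of_mul_le_mul_left h1 (Nat.factorial_pos a)

private theorem choose_sub (m a : ℕ) (ham : a ≤ m) (ha : 1 ≤ a) : ∀ j ≤ a,
    m.choose a ≤ (m - j).choose a + j * (m - 1).choose (a - 1) := by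
  intro j
  induction j with
  | zero => intro _; simp
  | succ j ih =>
    intro hj
    have h1 := ih (by omega)
    obtain ⟨b, rfl⟩ : ∃ b, a = b + 1 := ⟨a - 1, by omega⟩
    have h2 : (m - j).choose (b + 1) = (m - (j + 1)).choose b + (m - (j + 1)).choose (b + 1) := by
      rw [show m - j = (m - (j + 1)) + 1 by omega, Nat.choose_succ_succ]
    have h3 : (m - (j + 1)).choose b ≤ (m - 1).choose b := Nat.choose_le_choose b (by omega)
    simp only [Nat.add_sub_cancel] at h1 ⊢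
    rw [h2] at h1
    nlinarith

private theorem choose_sub' (m a : ℕ) (ham : a ≤ m) (ha : 1 ≤ a) :
    m * m.choose a ≤ m * (m - a).choose a + a ^ 2 * m.choose a := by
  have h1 := choose_sub m a ham ha a le_rfl
  have h2 : m * (m - 1).choose (a - 1) = a * m.choose a := by
    obtain ⟨b, rfl⟩ : ∃ b, a = b + 1 := ⟨a - 1, by omega⟩
    obtain ⟨n, rfl⟩ : ∃ n, m = n + 1 := ⟨m - 1, by omega⟩
    have := Nat.add_one_mul_choose_eq n b
    simp only [Nat.add_sub_cancel]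
    rw [this, mul_comm]
  calc m * m.choose a ≤ m * ((m - a).choose a + a * (m - 1).choose (a - 1)) :=
        Nat.mul_le_mul_left _ h1
    _ = m * (m - a).choose a + a * (m * (m - 1).choose (a - 1)) := by ring
    _ = m * (m - a).choose a + a ^ 2 * m.choose a := by rw [h2]; ring

/-- the numerical part -/
private theorem aux (a : ℕ) (ha : 2 ≤ a) (c₁ : ℝ) (hc₁ : 0 < c₁) (N : ℕ) (hN16 : 16 ≤ N)
    (hN1 : 8 * ((a : ℝ) + 1) * 2 ^ (a + 1) ≤ N) (hN2 : 4 * c₁ * a * 2 ^ a ≤ N)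
    (hN3 : (2 : ℝ) ^ (a + 1) * (a.factorial : ℝ) ≤ N)
    (hN4 : 48 * 4 ^ (a + 1) * (2 * ((a : ℝ) + 1) + 2 * ((a : ℝ) + 1) ^ 2 * 4 ^ (a + 1) *
      (9 + 2 ^ (a + 1))) ≤ (N : ℝ))
    (ε : ℝ) (hε : 0 < ε) (hε1 : ε ≤ 1) (hε2 : 2 * c₁ * ε ≤ (1 / (N : ℝ)) ^ (6 * a + 2))
    (hε3 : 96 * 4 ^ (a + 1) * ε ≤ (1 / (4 * (N : ℝ) ^ (2 * a + 8))) ^ a)
    (K : ℕ) (hK : N ^ (2 * a + 8) * (8 * (a + 1) + 2 * a ^ 2 * N) ≤ K) (d : ℝ) (hd : 0 < d)
    (hd1 : 1 ≤ (K.choose a : ℝ) * d) (hd2 : (K.choose a : ℝ) * d ≤ 1 + ε) :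
    ∃ (m m₂ : ℕ) (η π ρ : ℝ), 8 * (a + 1) ≤ m ∧ m ≤ m₂ ∧ m₂ + a ≤ K ∧ 0 < η ∧
      16 ^ (a + 1) * η ≤ 1 ∧ 0 < π ∧ π ≤ 1 ∧
      4 * ((a : ℝ) + 1) * (((m₂ + a).choose a : ℝ) * d) ≤ 1 / 2 ∧
      c₁ * ((a : ℝ) * (((m₂ + a).choose a : ℝ) * d) + ε) ≤ π ^ 2 * η ∧
      d * (m₂ : ℝ) ^ a ≤ η ∧
      (m.choose a : ℝ) ≤ (1 + ρ) * ((m - a).choose a : ℝ) ∧
      2 * ((a : ℝ) + 1) * ρ + 2 * ((a : ℝ) + 1) ^ 2 * 4 ^ (a + 1) *
        (6 * π + (m.choose a : ℝ) * d + η + η ^ 2 / (d * (m₂ : ℝ) ^ a)) ≤ 1 / (48 * 4 ^ (a + 1)) ∧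
      96 * 4 ^ (a + 1) * ε ≤ (m.choose a : ℝ) * d := by
  have hNpos : (0 : ℝ) < N := by exact_mod_cast (by omega : 0 < N)
  have hN16' : (16 : ℝ) ≤ N := by exact_mod_cast hN16
  set B : ℕ := N ^ (2 * a + 8) with hB
  have hBpos : 0 < B := Nat.pow_pos (by omega)
  set m : ℕ := K / B with hm
  set m₂ : ℕ := N ^ (2 * a) * m with hm₂
  have hmge : 8 * (a + 1) + 2 * a ^ 2 * N ≤ m := by
    rw [hm, Nat.le_div_iff_mul_le hBpos, mul_comm]
    exact hK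
  have hmpos : 0 < m := by omega
  have hmB : m * B ≤ K := Nat.div_mul_le_self K B
  have hKm : K ≤ 2 * (m * B) := by
    have h1 : K < B * (m + 1) := Nat.lt_mul_div_succ K hBpos
    have h2 : B * (m + 1) ≤ B * (2 * m) := Nat.mul_le_mul_left _ (by omega)
    nlinarith
  have hmm2 : m ≤ m₂ := Nat.le_mul_of_pos_left m (Nat.pow_pos (by omega))
  have hm2N : m₂ * N ^ 8 = m * B := by
    rw [hm₂, hB, pow_add]; ring
  have hN8 : 2 ≤ N ^ 8 := by
    calc 2 ≤ 16 ^ 8 := by norm_num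
      _ ≤ N ^ 8 := Nat.pow_le_pow_left hN16 8
  have hm2K : 2 * m₂ ≤ K := by
    calc 2 * m₂ = m₂ * 2 := mul_comm _ _
      _ ≤ m₂ * N ^ 8 := Nat.mul_le_mul_left _ hN8
      _ = m * B := hm2N
      _ ≤ K := hmB
  have hKpos : 0 < K := by omega
  have hK0 : (0 : ℝ) < K := by exact_mod_cast hKpos
  have hm0 : (0 : ℝ) < m := by exact_mod_cast hmpos
  have hm20 : (0 : ℝ) < m₂ := by exact_mod_cast (by omega : 0 < m₂)
  -- `y = 1/N`
  set y : ℝ := 1 / (N : ℝ) with hy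
  have hy0 : 0 < y := by positivity
  have hyN : y * N = 1 := by rw [hy]; field_simp
  have hy1 : y ≤ 1 := by
    rw [hy, div_le_one hNpos]; linarith
  -- ratios
  have r1 : (m₂ : ℝ) / K ≤ y ^ 8 := by
    rw [div_le_iff₀ hK0]
    have h1 : (m₂ : ℝ) * (N : ℝ) ^ 8 ≤ K := by
      have : m₂ * N ^ 8 ≤ K := by rw [hm2N]; exact hmB
      exact_mod_cast this
    calc (m₂ : ℝ) = y ^ 8 * ((m₂ : ℝ) * (N : ℝ) ^ 8) := by
          rw [show y ^ 8 * ((m₂ : ℝ) * (N : ℝ) ^ 8) = m₂ * (y * N) ^ 8 by ring, hyN]; ring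
      _ ≤ y ^ 8 * K := mul_le_mul_of_nonneg_left h1 (by positivity)
  have r2 : y ^ 8 / 2 ≤ (m₂ : ℝ) / K := by
    rw [le_div_iff₀ hK0]
    have h1 : (K : ℝ) ≤ 2 * ((m₂ : ℝ) * (N : ℝ) ^ 8) := by
      have : K ≤ 2 * (m₂ * N ^ 8) := by rw [hm2N]; exact hKm
      exact_mod_cast this
    calc y ^ 8 / 2 * K ≤ y ^ 8 / 2 * (2 * ((m₂ : ℝ) * (N : ℝ) ^ 8)) :=
          mul_le_mul_of_nonneg_left h1 (by positivity)
      _ = m₂ * (y * N) ^ 8 := by ring
      _ = m₂ := by rw [hyN]; ring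
  have hBy : y ^ (2 * a + 8) * (B : ℝ) = 1 := by
    rw [hB]; push_cast
    rw [← mul_pow, hyN, one_pow]
  have hB0 : (0 : ℝ) < B := by exact_mod_cast hBpos
  have s1 : (m : ℝ) / K ≤ y := by
    rw [div_le_iff₀ hK0]
    have h1 : (m : ℝ) * B ≤ K := by exact_mod_cast hmB
    have h2 : (m : ℝ) = y ^ (2 * a + 8) * (m * B) := by
      rw [show y ^ (2 * a + 8) * (m * B) = m * (y ^ (2 * a + 8) * (B : ℝ)) by ring, hBy, mul_one]
    calc (m : ℝ) = y ^ (2 * a + 8) * (m * B) := h2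
      _ ≤ y ^ (2 * a + 8) * K := mul_le_mul_of_nonneg_left h1 (by positivity)
      _ ≤ y * K := by
          refine mul_le_mul_of_nonneg_right ?_ hK0.le
          exact pow_le_of_le_one hy0.le hy1 (by omega)
  have s2 : 1 / (4 * (N : ℝ) ^ (2 * a + 8)) ≤ (m : ℝ) / (2 * K) := by
    rw [div_le_div_iff₀ (by positivity) (by positivity)]
    have h1 : (K : ℝ) ≤ 2 * (m * B) := by exact_mod_cast hKm
    have h2 : (B : ℝ) = (N : ℝ) ^ (2 * a + 8) := by rw [hB]; push_cast; rfl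
    rw [← h2]
    linarith
  have hx2 : (K.choose a : ℝ) * d ≤ 2 := by linarith
  -- choose bounds
  have hle : m₂ + a ≤ K := by omega
  have hup : ∀ n : ℕ, n ≤ K → (n.choose a : ℝ) * d ≤ 2 * ((n : ℝ) / K) ^ a := by
    intro n hn
    have h1 : (n.choose a : ℝ) * (K : ℝ) ^ a ≤ (K.choose a : ℝ) * (n : ℝ) ^ a := by
      exact_mod_cast choose_ratio n K hn a
    rw [div_pow, ← mul_div_assoc, le_div_iff₀ (by positivity)]
    calc (n.choose a : ℝ) * d * (K : ℝ) ^ a = ((n.choose a : ℝ) * (K : ℝ) ^ a) * d := by ring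
      _ ≤ ((K.choose a : ℝ) * (n : ℝ) ^ a) * d := mul_le_mul_of_nonneg_right h1 hd.le
      _ = ((K.choose a : ℝ) * d) * (n : ℝ) ^ a := by ring
      _ ≤ 2 * (n : ℝ) ^ a := mul_le_mul_of_nonneg_right hx2 (by positivity)
  have hv2 : ((m₂ + a).choose a : ℝ) * d ≤ 2 ^ (a + 1) * y ^ (8 * a) := by
    refine (hup _ hle).trans ?_
    have h1 : ((m₂ + a : ℕ) : ℝ) / K ≤ 2 * y ^ 8 := by
      have h2 : ((m₂ + a : ℕ) : ℝ) ≤ 2 * m₂ := by
        have : m₂ + a ≤ 2 * m₂ := by omega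
        exact_mod_cast this
      calc ((m₂ + a : ℕ) : ℝ) / K ≤ 2 * m₂ / K := div_le_div_of_nonneg_right h2 hK0.le
        _ = 2 * ((m₂ : ℝ) / K) := by ring
        _ ≤ 2 * y ^ 8 := by linarith
    calc 2 * (((m₂ + a : ℕ) : ℝ) / K) ^ a ≤ 2 * (2 * y ^ 8) ^ a :=
          mul_le_mul_of_nonneg_left (pow_le_pow_left₀ (by positivity) h1 a) (by norm_num)
      _ = 2 ^ (a + 1) * y ^ (8 * a) := by rw [mul_pow, ← pow_mul, pow_succ]; ring
  have hv : (m.choose a : ℝ) * d ≤ 2 * y := by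
    refine (hup m (by omega)).trans ?_
    have h1 : ((m : ℝ) / K) ^ a ≤ (m : ℝ) / K :=
      pow_le_of_le_one (by positivity) (s1.trans hy1) (by omega)
    linarith
  have hvlow : (1 / (4 * (N : ℝ) ^ (2 * a + 8))) ^ a ≤ (m.choose a : ℝ) * d := by
    have h1 : (K.choose a : ℝ) * (m : ℝ) ^ a ≤ (m.choose a : ℝ) * (2 * K) ^ a := by
      exact_mod_cast choose_ratio2 m K a (by omega)
    calc (1 / (4 * (N : ℝ) ^ (2 * a + 8))) ^ a ≤ ((m : ℝ) / (2 * K)) ^ a :=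
          pow_le_pow_left₀ (by positivity) s2 a
      _ ≤ ((K.choose a : ℝ) * d) * ((m : ℝ) / (2 * K)) ^ a :=
          le_mul_of_one_le_left (by positivity) hd1
      _ ≤ (m.choose a : ℝ) * d := by
          rw [div_pow, ← mul_div_assoc, div_le_iff₀ (by positivity)]
          calc (K.choose a : ℝ) * d * (m : ℝ) ^ a = ((K.choose a : ℝ) * (m : ℝ) ^ a) * d := by ring
            _ ≤ ((m.choose a : ℝ) * (2 * K) ^ a) * d := mul_le_mul_of_nonneg_right h1 hd.le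
            _ = (m.choose a : ℝ) * d * (2 * K) ^ a := by ring
  have hpow : ∀ p q : ℕ, q ≤ p → y ^ p ≤ y ^ q := fun p q h => pow_le_pow_of_le_one hy0.le hy1 h
  have hmulN : ∀ c : ℝ, c ≤ N → c * y ≤ 1 := by
    intro c hc
    calc c * y ≤ N * y := mul_le_mul_of_nonneg_right hc hy0.le
      _ = 1 := by rw [mul_comm]; exact hyN
  -- `d m₂^a ≤ y^(6a)`
  have hdm : d * (m₂ : ℝ) ^ a ≤ y ^ (6 * a) := by
    have h1 : ((K : ℝ) / 2) ^ a ≤ (a.factorial : ℝ) * (K.choose a : ℝ) := by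
      have h2 := Nat.pow_le_choose (α := ℝ) a K
      have h3 : (((K + 1 - a : ℕ) : ℝ)) ^ a ≤ (a.factorial : ℝ) * (K.choose a : ℝ) := by
        first
        | exact_mod_cast h2
        | (rw [div_le_iff₀ (by positivity)] at h2; rw [mul_comm]; exact_mod_cast h2)
      refine le_trans (pow_le_pow_left₀ (by positivity) ?_ a) h3
      rw [div_le_iff₀ (by norm_num)]
      have : K ≤ (K + 1 - a) * 2 := by omega
      exact_mod_cast this
    have h4 : d * (K : ℝ) ^ a ≤ 2 ^ (a + 1) * a.factorial := by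
      calc d * (K : ℝ) ^ a = d * 2 ^ a * ((K : ℝ) / 2) ^ a := by
            rw [div_pow]; field_simp
        _ ≤ d * 2 ^ a * ((a.factorial : ℝ) * (K.choose a : ℝ)) :=
            mul_le_mul_of_nonneg_left h1 (by positivity)
        _ = 2 ^ a * (a.factorial : ℝ) * ((K.choose a : ℝ) * d) := by ring
        _ ≤ 2 ^ a * (a.factorial : ℝ) * 2 := mul_le_mul_of_nonneg_left hx2 (by positivity)
        _ = 2 ^ (a + 1) * a.factorial := by rw [pow_succ]; ring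
    calc d * (m₂ : ℝ) ^ a = (d * (K : ℝ) ^ a) * ((m₂ : ℝ) / K) ^ a := by
          rw [div_pow]; field_simp
      _ ≤ (2 ^ (a + 1) * a.factorial) * (y ^ 8) ^ a :=
          mul_le_mul h4 (pow_le_pow_left₀ (by positivity) r1 a) (by positivity) (by positivity)
      _ = ((2 ^ (a + 1) * a.factorial) * y) * y ^ (8 * a - 1) := by
          rw [← pow_mul, mul_assoc _ y, ← pow_succ']
          congr 2
          omega
      _ ≤ 1 * y ^ (8 * a - 1) :=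
          mul_le_mul_of_nonneg_right (hmulN _ hN3) (by positivity)
      _ ≤ y ^ (6 * a) := by rw [one_mul]; exact hpow _ _ (by omega)
  have hdm' : (y ^ 8 / 2) ^ a ≤ d * (m₂ : ℝ) ^ a := by
    have h1 : (K.choose a : ℝ) ≤ (K : ℝ) ^ a := by exact_mod_cast Nat.choose_le_pow K a
    have h2 : 1 ≤ (K : ℝ) ^ a * d := hd1.trans (mul_le_mul_of_nonneg_right h1 hd.le)
    calc (y ^ 8 / 2) ^ a ≤ ((m₂ : ℝ) / K) ^ a := pow_le_pow_left₀ (by positivity) r2 a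
      _ ≤ ((K : ℝ) ^ a * d) * ((m₂ : ℝ) / K) ^ a := le_mul_of_one_le_left (by positivity) h2
      _ = d * (m₂ : ℝ) ^ a := by rw [div_pow]; field_simp
  have hq : (y ^ (6 * a)) ^ 2 / (d * (m₂ : ℝ) ^ a) ≤ 2 ^ (a + 1) * y := by
    rw [div_le_iff₀ (by positivity)]
    have h1 : (y ^ (6 * a)) ^ 2 = 2 ^ a * y ^ (4 * a) * (y ^ 8 / 2) ^ a := by
      rw [div_pow (y ^ 8) 2 a, ← pow_mul, ← pow_mul]
      rw [show (2 : ℝ) ^ a * y ^ (4 * a) * (y ^ (8 * a) / 2 ^ a) =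
        (y ^ (4 * a) * y ^ (8 * a)) * (2 ^ a / 2 ^ a) by ring, div_self (by positivity), mul_one,
        ← pow_add]
      congr 1
      ring
    rw [h1]
    have h2 : (2 : ℝ) ^ a * y ^ (4 * a) ≤ 2 ^ (a + 1) * y := by
      refine mul_le_mul (pow_le_pow_right₀ (by norm_num) (by omega)) ?_ (by positivity)
        (by positivity)
      exact pow_le_of_le_one hy0.le hy1 (by omega)
    exact mul_le_mul h2 hdm' (by positivity) (by positivity)
  refine ⟨m, m₂, y ^ (6 * a), y, y, by omega, hmm2, hle, by positivity, ?_, hy0, hy1, ?_, ?_, hdm,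
    ?_, ?_, hε3.trans hvlow⟩
  · -- 16^(a+1) y^(6a) ≤ 1
    have h1 : 16 * y ≤ 1 := hmulN _ hN16'
    calc (16 : ℝ) ^ (a + 1) * y ^ (6 * a) ≤ 16 ^ (a + 1) * y ^ (a + 1) :=
          mul_le_mul_of_nonneg_left (hpow _ _ (by omega)) (by positivity)
      _ = (16 * y) ^ (a + 1) := by rw [mul_pow]
      _ ≤ 1 := pow_le_one₀ (by positivity) h1
  · have h1 : 8 * ((a : ℝ) + 1) * 2 ^ (a + 1) * y ≤ 1 := hmulN _ hN1
    have h2 : y ^ (8 * a) ≤ y := pow_le_of_le_one hy0.le hy1 (by omega)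
    calc 4 * ((a : ℝ) + 1) * (((m₂ + a).choose a : ℝ) * d)
        ≤ 4 * ((a : ℝ) + 1) * (2 ^ (a + 1) * y ^ (8 * a)) :=
          mul_le_mul_of_nonneg_left hv2 (by positivity)
      _ ≤ 4 * ((a : ℝ) + 1) * (2 ^ (a + 1) * y) := by gcongr
      _ = (8 * ((a : ℝ) + 1) * 2 ^ (a + 1) * y) / 2 := by ring
      _ ≤ 1 / 2 := by linarith
  · have h1 : 4 * c₁ * a * 2 ^ a * y ≤ 1 := hmulN _ hN2
    have h3 : c₁ * (a * (((m₂ + a).choose a : ℝ) * d)) ≤ y ^ (6 * a + 2) / 2 := by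
      calc c₁ * (a * (((m₂ + a).choose a : ℝ) * d)) ≤ c₁ * (a * (2 ^ (a + 1) * y ^ (8 * a))) := by
            gcongr
        _ = (4 * c₁ * a * 2 ^ a * y) * y ^ (8 * a - 1) / 2 := by
            have : y ^ (8 * a) = y * y ^ (8 * a - 1) := by
              rw [← pow_succ']
              congr 1
              omega
            rw [this, pow_succ]
            ring
        _ ≤ 1 * y ^ (8 * a - 1) / 2 := by gcongr
        _ ≤ y ^ (6 * a + 2) / 2 := by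
            rw [one_mul]
            exact div_le_div_of_nonneg_right (hpow _ _ (by omega)) (by norm_num)
    calc c₁ * ((a : ℝ) * (((m₂ + a).choose a : ℝ) * d) + ε)
        = c₁ * (a * (((m₂ + a).choose a : ℝ) * d)) + c₁ * ε := by ring
      _ ≤ y ^ (6 * a + 2) / 2 + y ^ (6 * a + 2) / 2 := by
          have : c₁ * ε ≤ y ^ (6 * a + 2) / 2 := by linarith
          linarith
      _ = y ^ 2 * y ^ (6 * a) := by rw [pow_add]; ring
  · have h1 : (m : ℝ) * (m.choose a : ℝ) ≤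
        (m : ℝ) * ((m - a).choose a : ℝ) + (a : ℝ) ^ 2 * (m.choose a : ℝ) := by
      exact_mod_cast choose_sub' m a (by omega) (by omega)
    have h2 : 2 * (a : ℝ) ^ 2 * N ≤ m := by
      have : 2 * a ^ 2 * N ≤ m := by omega
      exact_mod_cast this
    have hC : (0 : ℝ) ≤ (m.choose a : ℝ) := by positivity
    -- multiply by `m`
    have h3 : (m : ℝ) * (m.choose a : ℝ) ≤ m * ((1 + y) * ((m - a).choose a : ℝ)) := by
      have h4 : (m : ℝ) ≤ (1 + y) * ((m : ℝ) - (a : ℝ) ^ 2) := by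
        have h5 : 2 * (a : ℝ) ^ 2 ≤ y * m := by
          calc 2 * (a : ℝ) ^ 2 = y * (2 * (a : ℝ) ^ 2 * N) := by
                rw [show y * (2 * (a : ℝ) ^ 2 * N) = 2 * (a : ℝ) ^ 2 * (y * N) by ring, hyN, mul_one]
            _ ≤ y * m := mul_le_mul_of_nonneg_left h2 hy0.le
        have h6 : y * (a : ℝ) ^ 2 ≤ (a : ℝ) ^ 2 := by
          have := mul_le_mul_of_nonneg_right hy1 (sq_nonneg (a : ℝ))
          linarith
        nlinarith
      calc (m : ℝ) * (m.choose a : ℝ) ≤ ((1 + y) * ((m : ℝ) - (a : ℝ) ^ 2)) * (m.choose a : ℝ) :=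
            mul_le_mul_of_nonneg_right h4 hC
        _ = (1 + y) * ((m : ℝ) * (m.choose a : ℝ) - (a : ℝ) ^ 2 * (m.choose a : ℝ)) := by ring
        _ ≤ (1 + y) * ((m : ℝ) * ((m - a).choose a : ℝ)) := by
            refine mul_le_mul_of_nonneg_left ?_ (by positivity)
            linarith
        _ = m * ((1 + y) * ((m - a).choose a : ℝ)) := by ring
    exact le_of_mul_le_mul_left h3 hm0
  · have h1 := hmulN _ hN4
    have h6 : y ^ (6 * a) ≤ y := pow_le_of_le_one hy0.le hy1 (by omega)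
    have h7 : 6 * y + (m.choose a : ℝ) * d + y ^ (6 * a) + (y ^ (6 * a)) ^ 2 / (d * (m₂ : ℝ) ^ a) ≤
        (9 + 2 ^ (a + 1)) * y := by
      have : (9 + 2 ^ (a + 1)) * y = 6 * y + 2 * y + y + 2 ^ (a + 1) * y := by ring
      rw [this]
      linarith
    rw [le_div_iff₀ (by positivity)]
    calc (2 * ((a : ℝ) + 1) * y + 2 * ((a : ℝ) + 1) ^ 2 * 4 ^ (a + 1) *
          (6 * y + (m.choose a : ℝ) * d + y ^ (6 * a) +
            (y ^ (6 * a)) ^ 2 / (d * (m₂ : ℝ) ^ a))) * (48 * 4 ^ (a + 1))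
        ≤ (2 * ((a : ℝ) + 1) * y + 2 * ((a : ℝ) + 1) ^ 2 * 4 ^ (a + 1) *
          ((9 + 2 ^ (a + 1)) * y)) * (48 * 4 ^ (a + 1)) := by gcongr
      _ = 48 * 4 ^ (a + 1) * (2 * ((a : ℝ) + 1) + 2 * ((a : ℝ) + 1) ^ 2 * 4 ^ (a + 1) *
          (9 + 2 ^ (a + 1))) * y := by ring
      _ ≤ 1 := h1

theorem params (t : ℕ) (ht : 3 ≤ t) : ∃ ε : ℝ, 0 < ε ∧ ∃ K₀ : ℕ, ∀ K : ℕ, K₀ ≤ K → ∀ d : ℝ,
    0 < d → 1 ≤ (K.choose (t - 1) : ℝ) * d → (K.choose (t - 1) : ℝ) * d ≤ 1 + ε →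
    ∃ (m m₂ : ℕ) (η π ρ : ℝ), 8 * t ≤ m ∧ m ≤ m₂ ∧ m₂ + (t - 1) ≤ K ∧ 0 < η ∧ 16 ^ t * η ≤ 1 ∧
      0 < π ∧ π ≤ 1 ∧
      4 * (t : ℝ) * (((m₂ + (t - 1)).choose (t - 1) : ℝ) * d) ≤ 1 / 2 ∧
      200 * (2 * (t : ℝ)) ^ t * (t : ℝ) ^ 2 * 4 ^ t *
        (((t : ℝ) - 1) * (((m₂ + (t - 1)).choose (t - 1) : ℝ) * d) + ε) ≤ π ^ 2 * η ∧
      d * (m₂ : ℝ) ^ (t - 1) ≤ η ∧
      (m.choose (t - 1) : ℝ) ≤ (1 + ρ) * ((m - (t - 1)).choose (t - 1) : ℝ) ∧
      2 * (t : ℝ) * ρ + 2 * (t : ℝ) ^ 2 * 4 ^ t * (6 * π + (m.choose (t - 1) : ℝ) * d + η +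
        η ^ 2 / (d * (m₂ : ℝ) ^ (t - 1))) ≤ 1 / (48 * 4 ^ t) ∧
      96 * 4 ^ t * ε ≤ (m.choose (t - 1) : ℝ) * d := by
  obtain ⟨a, rfl⟩ : ∃ a, t = a + 1 := ⟨t - 1, by omega⟩
  have ha : 2 ≤ a := by omega
  set c₁ : ℝ := 200 * (2 * ((a + 1 : ℕ) : ℝ)) ^ (a + 1) * ((a + 1 : ℕ) : ℝ) ^ 2 * 4 ^ (a + 1) with hc
  have hc₁ : 0 < c₁ := by rw [hc]; positivity
  obtain ⟨N, hN⟩ := exists_nat_ge (16 + 8 * ((a : ℝ) + 1) * 2 ^ (a + 1) + 4 * c₁ * a * 2 ^ a +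
    (2 : ℝ) ^ (a + 1) * (a.factorial : ℝ) + 48 * 4 ^ (a + 1) * (2 * ((a : ℝ) + 1) +
      2 * ((a : ℝ) + 1) ^ 2 * 4 ^ (a + 1) * (9 + 2 ^ (a + 1))))
  have p1 : 0 ≤ 8 * ((a : ℝ) + 1) * 2 ^ (a + 1) := by positivity
  have p2 : 0 ≤ 4 * c₁ * a * 2 ^ a := by positivity
  have p3 : 0 ≤ (2 : ℝ) ^ (a + 1) * (a.factorial : ℝ) := by positivity
  have p4 : 0 ≤ 48 * 4 ^ (a + 1) * (2 * ((a : ℝ) + 1) +
      2 * ((a : ℝ) + 1) ^ 2 * 4 ^ (a + 1) * (9 + 2 ^ (a + 1))) := by positivity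
  have hN16 : 16 ≤ N := by
    have : (16 : ℝ) ≤ N := by linarith
    exact_mod_cast this
  have hN0 : (0 : ℝ) < N := by exact_mod_cast (by omega : 0 < N)
  set e₁ : ℝ := (1 / (N : ℝ)) ^ (6 * a + 2) / (2 * c₁) with he₁
  set e₂ : ℝ := (1 / (4 * (N : ℝ) ^ (2 * a + 8))) ^ a / (96 * 4 ^ (a + 1)) with he₂
  have he₁0 : 0 < e₁ := by rw [he₁]; positivity
  have he₂0 : 0 < e₂ := by rw [he₂]; positivity
  refine ⟨min 1 (min e₁ e₂), by positivity, N ^ (2 * a + 8) * (8 * (a + 1) + 2 * a ^ 2 * N), ?_⟩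
  intro K hK d hd hd1 hd2
  have hm1 : min 1 (min e₁ e₂) ≤ 1 := min_le_left _ _
  have hm2 : min 1 (min e₁ e₂) ≤ e₁ := (min_le_right _ _).trans (min_le_left _ _)
  have hm3 : min 1 (min e₁ e₂) ≤ e₂ := (min_le_right _ _).trans (min_le_right _ _)
  have h := aux a ha c₁ hc₁ N hN16 (by linarith) (by linarith) (by linarith) (by linarith)
    (min 1 (min e₁ e₂)) (by positivity) hm1 (by
      rw [he₁, le_div_iff₀ (by positivity)] at hm2
      linarith) (by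
      rw [he₂, le_div_iff₀ (by positivity)] at hm3
      linarith) K hK d hd (by simpa using hd1) (by simpa using hd2)
  have e1 : ((a + 1 : ℕ) : ℝ) = (a : ℝ) + 1 := by push_cast; ring
  have e2 : ((a + 1 : ℕ) : ℝ) - 1 = (a : ℝ) := by push_cast; ring
  rw [e2, Nat.add_sub_cancel]
  simp only [e1] at hc ⊢
  exact h

end Pool.Agent.H123R2.Gen
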