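import Pool.Agent.H123R2.GZ.CO
import Pool.Agent.H123R2.GZ.PR

set_option autoImplicit false
set_option linter.unusedSectionVars false
set_option linter.unusedVariables false

namespace Pool.Agent.H123R2.Gen

open Finset

private theorem choose_ge (a : ℕ) (ha : 1 ≤ a) (j : ℕ) : j + 1 ≤ (a + j).choose a := by
  induction j with
  | zero => simp
  | succ j ih =>
    obtain ⟨b, rfl⟩ : ∃ b, a = b + 1 := ⟨a - 1, by omega⟩
    have h1 : (b + 1 + (j + 1)).choose (b + 1) = (b + 1 + j).choose b + (b + 1 + j).choose (b + 1) := by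
      have : b + 1 + (j + 1) = (b + 1 + j) + 1 := by ring
      rw [this, Nat.choose_succ_succ]
    have h2 : 1 ≤ (b + 1 + j).choose b := Nat.choose_pos (by omega)
    omega

theorem main (t : ℕ) (ht : 3 ≤ t) : ∃ ε : ℝ, 0 < ε ∧ ∃ k₀ : ℕ, ∀ k : ℕ, k₀ ≤ k →
    ∀ (V : Type) [Fintype V] [DecidableEq V] (w : V → ℝ) (F : Multiset V → Prop) (d : ℝ),
    Sys w F t d → Q w F t k 0 = 0 → 1 + ε ≤ ((k - 1).choose (t - 1) : ℝ) * d := by
  classical
  obtain ⟨ε, hε, K₀, hp⟩ := params t ht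
  obtain ⟨N, hN⟩ := exists_nat_ge ((1 + ε) * (K₀.choose (t - 1) : ℝ))
  refine ⟨ε, hε, t + N, ?_⟩
  intro k hk V _ _ w F d hS hQk
  -- the least index
  have hex : ∃ n : ℕ, Q w F t n 0 = 0 := ⟨k, hQk⟩
  set n0 := Nat.find hex with hn0
  have hn0Q : Q w F t n0 0 = 0 := Nat.find_spec hex
  have hn0k : n0 ≤ k := Nat.find_min' hex hQk
  obtain ⟨hq1, hq2⟩ := q_start hS
  have hn0t : t ≤ n0 := by
    by_contra hcon
    have h1 : n0 ≤ t - 1 := by omega
    have h2 := Q_anti_m w hS.w0 hS.w1 F t h1 0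
    rw [hn0Q, hq1] at h2
    linarith
  obtain ⟨K, hK⟩ : ∃ K, n0 = K + 1 := ⟨n0 - 1, by omega⟩
  have hQK : 0 < Q w F t K 0 := by
    have h1 : Q w F t K 0 ≠ 0 := Nat.find_min hex (by omega)
    exact lt_of_le_of_ne (Q_nonneg w hS.w0 F t K 0) (Ne.symm h1)
  have hQK1 : Q w F t (K + 1) 0 = 0 := by rw [← hK]; exact hn0Q
  have hcl := chain_lower hS K hQK hQK1 (t - 1) le_rfl (by omega)
  have htt : t - 1 + 1 = t := by omega
  rw [htt, hq1, hq2, Nat.choose_self] at hcl
  have h1d : 1 ≤ (K.choose (t - 1) : ℝ) * d := by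
    push_cast at hcl
    linarith
  have hd : 0 < d := by
    have hd0 := d_nonneg hS
    rcases hd0.eq_or_lt with h | h
    · rw [← h] at h1d
      norm_num at h1d
    · exact h
  rcases le_or_gt K₀ K with hKK | hKK
  · have h3 : 1 + ε < (K.choose (t - 1) : ℝ) * d := by
      by_contra hcon
      push Not at hcon
      obtain ⟨m, m₂, η, π, ρ, hm, hmm, hmK, hη, hη1, hπ, hπ1, hv2, hKη, hdm, hρ, hsm, hlast⟩ :=
        hp K hKK d hd h1d hcon
      have hc := core hS K m m₂ hQK hQK1 hm hmm hmK hd η π ε ρ hη hη1 hπ hπ1 hε.le hcon hv2 hKη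
        hdm hρ hsm
      set Cd : ℝ := (K.choose (t - 1) : ℝ) * d with hCd
      set v : ℝ := (m.choose (t - 1) : ℝ) * d with hv
      have h4 : (0 : ℝ) < 4 ^ t := by positivity
      have h5 : 2 * ε ≤ v / (48 * 4 ^ t) := by
        rw [le_div_iff₀ (by positivity)]
        linarith
      have h6 : 0 < 1 - v / (48 * 4 ^ t) := by
        by_contra h7
        push Not at h7
        have : Cd * (1 - v / (48 * 4 ^ t)) ≤ 0 :=
          mul_nonpos_of_nonneg_of_nonpos (by linarith) h7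
        linarith
      have h8 : Cd * (1 - v / (48 * 4 ^ t)) ≤ (1 + ε) * (1 - 2 * ε) := by
        calc Cd * (1 - v / (48 * 4 ^ t)) ≤ (1 + ε) * (1 - v / (48 * 4 ^ t)) :=
              mul_le_mul_of_nonneg_right hcon h6.le
          _ ≤ (1 + ε) * (1 - 2 * ε) := by
              apply mul_le_mul_of_nonneg_left _ (by linarith)
              linarith
      nlinarith
    have h4 : (K.choose (t - 1) : ℝ) ≤ ((k - 1).choose (t - 1) : ℝ) := by
      exact_mod_cast Nat.choose_le_choose (t - 1) (by omega : K ≤ k - 1)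
    have h5 : (K.choose (t - 1) : ℝ) * d ≤ ((k - 1).choose (t - 1) : ℝ) * d :=
      mul_le_mul_of_nonneg_right h4 hd.le
    linarith
  · have h4 : (K.choose (t - 1) : ℝ) ≤ (K₀.choose (t - 1) : ℝ) := by
      exact_mod_cast Nat.choose_le_choose (t - 1) hKK.le
    have h5 : (K.choose (t - 1) : ℝ) * d ≤ (K₀.choose (t - 1) : ℝ) * d :=
      mul_le_mul_of_nonneg_right h4 hd.le
    have h6 : (N : ℝ) ≤ ((k - 1).choose (t - 1) : ℝ) := by
      obtain ⟨j, hj⟩ : ∃ j, k - 1 = (t - 1) + j := ⟨k - 1 - (t - 1), by omega⟩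
      have h7 := choose_ge (t - 1) (by omega) j
      rw [← hj] at h7
      have : N ≤ (k - 1).choose (t - 1) := by omega
      exact_mod_cast this
    calc 1 + ε ≤ (1 + ε) * ((K₀.choose (t - 1) : ℝ) * d) := by
          have : (1 : ℝ) ≤ (K₀.choose (t - 1) : ℝ) * d := h1d.trans h5
          nlinarith
      _ = ((1 + ε) * (K₀.choose (t - 1) : ℝ)) * d := by ring
      _ ≤ ((k - 1).choose (t - 1) : ℝ) * d :=
          mul_le_mul_of_nonneg_right (hN.trans h6) hd.le

end Pool.Agent.H123R2.Gen
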