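import Pool.Agent.H123R2.Gen.BAS
import Pool.Agent.H123R2.GZ.FG

/-!
Covering families: task TU1.
-/

set_option autoImplicit false

namespace Pool.Agent.H123R2.Gen

open Finset

theorem FG_cover {n : ℕ} (G : Finset (Finset (Fin n))) (t k : ℕ) (ht : 2 ≤ t) (hk : t ≤ k)
    (hG : ∀ Z ∈ G, Z.card = t)
    (hcov : ∀ Y : Finset (Fin n), Y.card = k → ∃ Z ∈ G, Z ⊆ Y) (J : Multiset (Fin n))
    (hJ : J.card = k) : ¬ Indep (FG G) t J := by
  intro hI
  by_cases hnd : J.Nodup
  · have hc : J.toFinset.card = k := by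
      rw [Multiset.toFinset_card_of_nodup hnd, hJ]
    obtain ⟨Z, hZ, hZJ⟩ := hcov J.toFinset hc
    refine hI Z.val ?_ (hG Z hZ) (Or.inr ?_)
    · have h1 : Z.val ≤ J.toFinset.val := Finset.val_le_iff.2 hZJ
      rwa [Multiset.toFinset_val, Multiset.dedup_eq_self.2 hnd] at h1
    · rw [Finset.val_toFinset]; exact hZ
  · rw [Multiset.nodup_iff_le] at hnd
    push Not at hnd
    obtain ⟨x, hx⟩ := hnd
    obtain ⟨J', rfl⟩ := Multiset.le_iff_exists_add.1 hx
    have hJ' : J'.card = k - 2 := by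
      rw [Multiset.card_add] at hJ
      simp only [Multiset.card_cons, Multiset.card_zero] at hJ
      omega
    have hne : 0 < (J'.powersetCard (t - 2)).card := by
      rw [Multiset.card_powersetCard, hJ']
      exact Nat.choose_pos (by omega)
    obtain ⟨R, hR⟩ := Multiset.card_pos_iff_exists_mem.1 hne
    rw [Multiset.mem_powersetCard] at hR
    refine hI (x ::ₘ x ::ₘ 0 + R) (by gcongr; exact hR.1) ?_ (Or.inl ?_)
    · rw [Multiset.card_add, hR.2]
      simp only [Multiset.card_cons, Multiset.card_zero]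
      omega
    · rw [Multiset.nodup_iff_le]
      push Not
      exact ⟨x, Multiset.le_add_right _ _⟩

private theorem sum_ind_mem {n : ℕ} (X : Multiset (Fin n)) :
    ∑ x : Fin n, ind (x ∈ X) ≤ X.card := by
  have h1 : ∑ x : Fin n, ind (x ∈ X) = (X.toFinset.card : ℝ) := by
    have h2 : ∀ x : Fin n, ind (x ∈ X) = if x ∈ X.toFinset then (1 : ℝ) else 0 := by
      intro x
      by_cases h : x ∈ X
      · rw [ind_true h, if_pos (Multiset.mem_toFinset.2 h)]
      · rw [ind_false h, if_neg (fun h' => h (Multiset.mem_toFinset.1 h'))]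
    rw [Finset.sum_congr rfl fun x _ => h2 x, Finset.sum_ite_mem, Finset.univ_inter,
      Finset.sum_const, nsmul_eq_mul, mul_one]
  rw [h1]
  exact_mod_cast Multiset.toFinset_card_le X

private theorem w_sum {n : ℕ} (hn : 0 < n) : ∑ _x : Fin n, 1 / (n : ℝ) = 1 := by
  have : (n : ℝ) ≠ 0 := by exact_mod_cast hn.ne'
  rw [Finset.sum_const, Finset.card_univ, Fintype.card_fin, nsmul_eq_mul]
  field_simp

private theorem nodup_bound {n : ℕ} (hn : 0 < n) (t : ℕ) :
    M (fun _ : Fin n => 1 / (n : ℝ)) t (fun Z => ind (¬ Z.Nodup)) ≤ (t : ℝ) ^ 2 / (2 * n) := by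
  have hn0 : (0 : ℝ) < n := by exact_mod_cast hn
  have hw : ∀ x : Fin n, 0 ≤ (fun _ : Fin n => 1 / (n : ℝ)) x := fun x => by positivity
  induction t with
  | zero =>
    rw [M_zero, ind_false (by simp)]
    positivity
  | succ t ih =>
    rw [M_succ]
    have h1 : ∀ x : Fin n, M (fun _ : Fin n => 1 / (n : ℝ)) t
        (fun X => ind (¬ (x ::ₘ X).Nodup)) ≤
        M (fun _ : Fin n => 1 / (n : ℝ)) t (fun X => ind (x ∈ X)) +
          M (fun _ : Fin n => 1 / (n : ℝ)) t (fun X => ind (¬ X.Nodup)) := by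
      intro x
      rw [← M_add_fun]
      refine M_mono _ hw t fun X _ => ?_
      by_cases hx : x ∈ X
      · rw [ind_true hx]
        linarith [ind_le_one (¬ (x ::ₘ X).Nodup), ind_nonneg (¬ X.Nodup)]
      · have h2 : ind (¬ (x ::ₘ X).Nodup) ≤ ind (¬ X.Nodup) := by
          refine ind_mono fun h h' => h ?_
          rw [Multiset.nodup_cons]
          exact ⟨hx, h'⟩
        linarith [ind_nonneg (x ∈ X)]
    have h3 : ∑ x : Fin n, 1 / (n : ℝ) * M (fun _ : Fin n => 1 / (n : ℝ)) t
        (fun X => ind (x ∈ X)) ≤ t / n := by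
      rw [M_swap_sum (fun _ : Fin n => 1 / (n : ℝ)) t (fun x X => ind (x ∈ X))]
      have h4 : M (fun _ : Fin n => 1 / (n : ℝ)) t
          (fun X => ∑ x : Fin n, 1 / (n : ℝ) * ind (x ∈ X)) ≤
          M (fun _ : Fin n => 1 / (n : ℝ)) t (fun _ => (t : ℝ) / n) := by
        refine M_mono _ hw t fun X hX => ?_
        rw [← Finset.mul_sum]
        have := sum_ind_mem X
        rw [hX] at this
        calc 1 / (n : ℝ) * ∑ x : Fin n, ind (x ∈ X) ≤ 1 / (n : ℝ) * t :=
              mul_le_mul_of_nonneg_left this (by positivity)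
          _ = t / n := by ring
      rw [M_const _ (w_sum hn)] at h4
      exact h4
    calc ∑ x : Fin n, 1 / (n : ℝ) * M (fun _ : Fin n => 1 / (n : ℝ)) t
          (fun X => ind (¬ (x ::ₘ X).Nodup))
        ≤ ∑ x : Fin n, 1 / (n : ℝ) * (M (fun _ : Fin n => 1 / (n : ℝ)) t (fun X => ind (x ∈ X)) +
          M (fun _ : Fin n => 1 / (n : ℝ)) t (fun X => ind (¬ X.Nodup))) :=
          Finset.sum_le_sum fun x _ => mul_le_mul_of_nonneg_left (h1 x) (by positivity)
      _ = ∑ x : Fin n, 1 / (n : ℝ) * M (fun _ : Fin n => 1 / (n : ℝ)) t (fun X => ind (x ∈ X)) +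
          (∑ _x : Fin n, 1 / (n : ℝ)) *
            M (fun _ : Fin n => 1 / (n : ℝ)) t (fun X => ind (¬ X.Nodup)) := by
          rw [Finset.sum_mul, ← Finset.sum_add_distrib]
          exact Finset.sum_congr rfl fun x _ => by ring
      _ ≤ t / n + t ^ 2 / (2 * n) := by
          rw [w_sum hn, one_mul]
          exact add_le_add h3 ih
      _ ≤ ((t + 1 : ℕ) : ℝ) ^ 2 / (2 * n) := by
          have : (t : ℝ) / n + t ^ 2 / (2 * n) = (2 * t + t ^ 2) / (2 * n) := by
            field_simp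
          rw [this]
          apply div_le_div_of_nonneg_right _ (by positivity)
          push_cast
          nlinarith

private theorem eq_bound {n : ℕ} (hn : 0 < n) (t : ℕ) (S : Multiset (Fin n)) (hS : S.card = t) :
    M (fun _ : Fin n => 1 / (n : ℝ)) t (fun Z => ind (Z = S)) ≤
      (t.factorial : ℝ) / (n : ℝ) ^ t := by
  have hn0 : (0 : ℝ) < n := by exact_mod_cast hn
  have hw : ∀ x : Fin n, 0 ≤ (fun _ : Fin n => 1 / (n : ℝ)) x := fun x => by positivity
  induction t generalizing S with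
  | zero =>
    rw [M_zero]
    refine (ind_le_one _).trans (by simp)
  | succ t ih =>
    rw [M_succ]
    have h1 : ∀ x : Fin n, M (fun _ : Fin n => 1 / (n : ℝ)) t
        (fun X => ind (x ::ₘ X = S)) ≤ ind (x ∈ S) * ((t.factorial : ℝ) / (n : ℝ) ^ t) := by
      intro x
      by_cases hx : x ∈ S
      · rw [ind_true hx, one_mul]
        refine le_trans (M_mono _ hw t fun X _ => ?_) (ih (S.erase x) ?_)
        · exact ind_mono fun h => by rw [← h, Multiset.erase_cons_head]
        · rw [Multiset.card_erase_of_mem hx, hS]; rfl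
      · rw [ind_false hx, zero_mul]
        have : M (fun _ : Fin n => 1 / (n : ℝ)) t (fun X => ind (x ::ₘ X = S)) =
            M (fun _ : Fin n => 1 / (n : ℝ)) t (fun _ => 0) := by
          refine M_congr _ t fun X _ => ind_false fun h => hx ?_
          rw [← h]; exact Multiset.mem_cons_self x X
        rw [this, M_zero_fun]
    calc ∑ x : Fin n, 1 / (n : ℝ) * M (fun _ : Fin n => 1 / (n : ℝ)) t
          (fun X => ind (x ::ₘ X = S))
        ≤ ∑ x : Fin n, 1 / (n : ℝ) * (ind (x ∈ S) * ((t.factorial : ℝ) / (n : ℝ) ^ t)) :=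
          Finset.sum_le_sum fun x _ => mul_le_mul_of_nonneg_left (h1 x) (by positivity)
      _ = (∑ x : Fin n, ind (x ∈ S)) * (1 / (n : ℝ) * ((t.factorial : ℝ) / (n : ℝ) ^ t)) := by
          rw [Finset.sum_mul]
          exact Finset.sum_congr rfl fun x _ => by ring
      _ ≤ ((t + 1 : ℕ) : ℝ) * (1 / (n : ℝ) * ((t.factorial : ℝ) / (n : ℝ) ^ t)) := by
          refine mul_le_mul_of_nonneg_right ?_ (by positivity)
          have := sum_ind_mem S
          rwa [hS] at this
      _ = ((t + 1).factorial : ℝ) / (n : ℝ) ^ (t + 1) := by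
          rw [Nat.factorial_succ, pow_succ]
          push_cast
          field_simp

theorem FG_uniform {n : ℕ} (hn : 0 < n) (G : Finset (Finset (Fin n))) (t : ℕ)
    (hG : ∀ Z ∈ G, Z.card = t) :
    M (fun _ : Fin n => 1 / (n : ℝ)) t (fun Z => ind (FG G Z)) ≤
      (t : ℝ) ^ 2 / (2 * n) + (t.factorial : ℝ) * G.card / (n : ℝ) ^ t := by
  have hw : ∀ x : Fin n, 0 ≤ (fun _ : Fin n => 1 / (n : ℝ)) x := fun x => by positivity
  have h1 : M (fun _ : Fin n => 1 / (n : ℝ)) t (fun Z => ind (FG G Z)) ≤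
      M (fun _ : Fin n => 1 / (n : ℝ)) t
        (fun Z => ind (¬ Z.Nodup) + ∑ S ∈ G, ind (Z = S.val)) := by
    refine M_mono _ hw t fun Z _ => ?_
    have hs : 0 ≤ ∑ S ∈ G, ind (Z = S.val) := Finset.sum_nonneg fun S _ => ind_nonneg _
    by_cases hnd : Z.Nodup
    · by_cases hZ : Z.toFinset ∈ G
      · have h2 : ind (Z = Z.toFinset.val) ≤ ∑ S ∈ G, ind (Z = S.val) :=
          Finset.single_le_sum (f := fun S : Finset (Fin n) => ind (Z = S.val))
            (fun S _ => ind_nonneg _) hZ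
        rw [ind_true (by rw [Multiset.toFinset_val, Multiset.dedup_eq_self.2 hnd])] at h2
        linarith [ind_le_one (FG G Z), ind_nonneg (¬ Z.Nodup)]
      · rw [ind_false (p := FG G Z) (by
          rintro (h | h)
          · exact h hnd
          · exact hZ h)]
        linarith [ind_nonneg (¬ Z.Nodup)]
    · rw [ind_true (p := ¬ Z.Nodup) hnd]
      linarith [ind_le_one (FG G Z)]
  refine h1.trans ?_
  rw [M_add_fun, M_sum]
  refine add_le_add (nodup_bound hn t) ?_
  calc ∑ S ∈ G, M (fun _ : Fin n => 1 / (n : ℝ)) t (fun Z => ind (Z = S.val))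
      ≤ ∑ _S ∈ G, (t.factorial : ℝ) / (n : ℝ) ^ t :=
        Finset.sum_le_sum fun S hS => eq_bound hn t S.val (hG S hS)
    _ = (t.factorial : ℝ) * G.card / (n : ℝ) ^ t := by
        rw [Finset.sum_const, nsmul_eq_mul]; ring

end Pool.Agent.H123R2.Gen
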