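import Pool.Agent.H123R2.GZ.MA
import Pool.Agent.H123R2.GZ.RG
import Pool.Agent.H123R2.GZ.TU1

/-!
The final theorem about covering families.
-/

set_option autoImplicit false
set_option linter.unusedSectionVars false
set_option linter.unusedVariables false

namespace Pool.Agent.H123R2.Gen

open Finset

private theorem lift_le {α β : Type} [DecidableEq α] [DecidableEq β] (g : α → β)
    (J : Multiset α) : ∀ Z : Multiset β, Z ≤ J.map g → ∃ Z' : Multiset α, Z' ≤ J ∧ Z'.map g = Z := by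
  induction J using Multiset.induction_on with
  | empty =>
    intro Z hZ
    rw [Multiset.map_zero, Multiset.le_zero] at hZ
    exact ⟨0, le_rfl, by rw [hZ, Multiset.map_zero]⟩
  | cons a J ih =>
    intro Z hZ
    rw [Multiset.map_cons] at hZ
    by_cases ha : g a ∈ Z
    · obtain ⟨Z₁, rfl⟩ := Multiset.exists_cons_of_mem ha
      rw [Multiset.cons_le_cons_iff] at hZ
      obtain ⟨Z', h1, h2⟩ := ih Z₁ hZ
      exact ⟨a ::ₘ Z', (Multiset.cons_le_cons_iff a).2 h1, by rw [Multiset.map_cons, h2]⟩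
    · rw [Multiset.le_cons_of_notMem ha] at hZ
      obtain ⟨Z', h1, h2⟩ := ih Z hZ
      exact ⟨Z', h1.trans (Multiset.le_cons_self _ _), h2⟩

private theorem sq_le_fact (t : ℕ) (ht : 3 ≤ t) : t ^ 2 ≤ 2 * t.factorial := by
  induction t, ht using Nat.le_induction with
  | base => decide
  | succ t ht ih =>
    rw [Nat.factorial_succ]
    have h1 := Nat.self_le_factorial t
    nlinarith

theorem final (t : ℕ) (ht : 3 ≤ t) : ∃ ε : ℝ, 0 < ε ∧ ∃ k₀ : ℕ, ∀ k : ℕ, k₀ ≤ k →
    ∀ n : ℕ, k < n → ∀ G : Finset (Finset (Fin n)), (∀ Z ∈ G, Z.card = t) →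
    (∀ Y : Finset (Fin n), Y.card = k → ∃ Z ∈ G, Z ⊆ Y) →
    (1 + ε) / ((k - 1).choose (t - 1) : ℝ) * (n.choose t : ℝ) - (n : ℝ) ^ (t - 1) ≤
      (G.card : ℝ) := by
  obtain ⟨ε, hε, k₀, hmain⟩ := main t ht
  refine ⟨ε, hε, max k₀ t, ?_⟩
  intro k hk n hkn G hG hcov
  have hk0 : k₀ ≤ k := (le_max_left _ _).trans hk
  have hkt : t ≤ k := (le_max_right _ _).trans hk
  have hn : 0 < n := by omega
  have hne : Nonempty (Fin n) := ⟨⟨0, hn⟩⟩
  obtain ⟨w, hw, hw1, hreg, hmin⟩ := regular (V := Fin n) (FG G) t ht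
  set D := M w t (fun Z => ind (FG G Z)) with hD
  let F' : Multiset {x : Fin n // 0 < w x} → Prop := fun Z => FG G (Z.map Subtype.val)
  have hS : Sys (V := {x : Fin n // 0 < w x}) (fun x => w x.1) F' t D := by
    refine ⟨fun x => hw x.1, ?_, ht, ?_⟩
    · have h1 := support w hw 1 (fun _ => 1)
      simp only [M_succ, M_zero, mul_one] at h1
      rw [h1, hw1]
    · intro x
      rw [← hreg x.1 x.2]
      unfold cd
      rw [Multiset.card_singleton, Multiset.card_singleton]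
      rw [← support w hw (t - 1) (fun Z => ind (FG G ({x.1} + Z)))]
      refine M_congr (V := {x : Fin n // 0 < w x}) _ _ fun Z _ => ?_
      show ind (FG G (({x} + Z).map Subtype.val)) = ind (FG G ({x.1} + Z.map Subtype.val))
      rw [Multiset.map_add, Multiset.map_singleton]
  have hQ : Q (V := {x : Fin n // 0 < w x}) (fun x => w x.1) F' t k 0 = 0 := by
    unfold Q
    refine Eq.trans (M_congr (V := {x : Fin n // 0 < w x}) _ _ (g := fun _ => (0 : ℝ))
      fun J hJ => ind_false ?_) (M_zero_fun (V := {x : Fin n // 0 < w x}) (fun x => w x.1) k)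
    intro hI
    refine FG_cover G t k (by omega) hkt hG hcov (J.map Subtype.val)
      (by rw [Multiset.card_map]; exact hJ) ?_
    intro Z hZ hZc hZF
    obtain ⟨Z', h1, h2⟩ := lift_le Subtype.val J Z hZ
    refine hI Z' (by rw [zero_add]; exact h1) ?_ ?_
    · rw [← hZc, ← h2, Multiset.card_map]
    · show FG G (Z'.map Subtype.val)
      rw [h2]
      exact hZF
  have h1 := hmain k hk0 {x : Fin n // 0 < w x} (fun x => w x.1) F' D hS hQ
  have h2 := hmin (fun _ => 1 / (n : ℝ)) (fun _ => by positivity) (by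
    rw [Finset.sum_const, Finset.card_univ, Fintype.card_fin, nsmul_eq_mul]
    have : (n : ℝ) ≠ 0 := by exact_mod_cast hn.ne'
    field_simp)
  have h3 := FG_uniform hn G t hG
  have h4 : D ≤ (t : ℝ) ^ 2 / (2 * n) + (t.factorial : ℝ) * G.card / (n : ℝ) ^ t := h2.trans h3
  have hC : (0 : ℝ) < ((k - 1).choose (t - 1) : ℝ) := by
    exact_mod_cast Nat.choose_pos (by omega)
  have h5 : (1 + ε) / ((k - 1).choose (t - 1) : ℝ) ≤ D := by
    rw [div_le_iff₀ hC, mul_comm]
    exact h1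
  have hn' : (0 : ℝ) < n := by exact_mod_cast hn
  have hf : (0 : ℝ) < t.factorial := by exact_mod_cast Nat.factorial_pos t
  have h6 : (n.choose t : ℝ) ≤ (n : ℝ) ^ t / (t.factorial : ℝ) := Nat.choose_le_pow_div t n
  have h7 : 0 ≤ (1 + ε) / ((k - 1).choose (t - 1) : ℝ) := by positivity
  have h8 : (1 + ε) / ((k - 1).choose (t - 1) : ℝ) * (n.choose t : ℝ) ≤
      ((t : ℝ) ^ 2 / (2 * n) + (t.factorial : ℝ) * G.card / (n : ℝ) ^ t) *
        ((n : ℝ) ^ t / (t.factorial : ℝ)) :=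
    mul_le_mul (h5.trans h4) h6 (by positivity) (by positivity)
  have h9 : ((t : ℝ) ^ 2 / (2 * n) + (t.factorial : ℝ) * G.card / (n : ℝ) ^ t) *
        ((n : ℝ) ^ t / (t.factorial : ℝ)) =
      (t : ℝ) ^ 2 / (2 * t.factorial) * (n : ℝ) ^ (t - 1) + G.card := by
    obtain ⟨r, rfl⟩ : ∃ r, t = r + 1 := ⟨t - 1, by omega⟩
    rw [Nat.add_sub_cancel, pow_succ (n : ℝ) r]
    field_simp
  have h10 : (t : ℝ) ^ 2 / (2 * t.factorial) ≤ 1 := by
    rw [div_le_one (by positivity)]
    exact_mod_cast sq_le_fact t ht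
  have h11 : (t : ℝ) ^ 2 / (2 * t.factorial) * (n : ℝ) ^ (t - 1) ≤ 1 * (n : ℝ) ^ (t - 1) :=
    mul_le_mul_of_nonneg_right h10 (by positivity)
  rw [h9] at h8
  linarith

end Pool.Agent.H123R2.Gen
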